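import Mathlib

/-!
A planar, locally finite graph with all degrees at least seven and uncountably many ends.

Vertices of the first kind are the cells `(t, i)`, `32 ≤ t`, `i < 8 ^ t` (level `t`, position `i`).
The levels are grouped in blocks: level `t` lies in block `Nb t`, block `n` consists of the levels
`32 * 2 ^ n ≤ t < 32 * 2 ^ (n + 1)`.  In block `n` every level is cut in `8 ^ lam n` strips.
Vertices of the second kind are the hubs `(n, j)`, one for every strip `j < 8 ^ lam n` of block `n`.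
-/

set_option autoImplicit false

namespace Pool.Agent.H728R3

/-- block number of the level `t` -/
def Nb (t : ℕ) : ℕ := Nat.log 2 t - 5

/-- the strips of block `n` are the intervals of length `8 ^ (- lam n)` -/
def lam (n : ℕ) : ℕ := 8 * 2 ^ n - 8

/-- number of cells of a strip at level `t` -/
def wd (t : ℕ) : ℕ := 8 ^ (t - lam (Nb t))

/-- raw vertices: cells and hubs -/
abbrev RV : Type := (ℕ × ℕ) ⊕ (ℕ × ℕ)

/-- the raw vertices which are used -/
def Valid : RV → Prop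
  | .inl (t, i) => 32 ≤ t ∧ i < 8 ^ t
  | .inr (n, j) => j < 8 ^ lam n

/-- oriented edges -/
def E : RV → RV → Prop
  | .inl (t, i), .inl (t', i') =>
      (t' = t ∧ i' = i + 1 ∧ i / wd t = (i + 1) / wd t) ∨
      (t' = t + 1 ∧ (i' / 8 = i ∨
        (i' = 8 * i + 8 ∧ (8 * i + 7) / wd (t + 1) = (8 * i + 8) / wd (t + 1))))
  | .inr (n, j), .inl (t, i) => Nb t = n ∧ i = j * wd t
  | .inr (n, j), .inr (n', j') => n' = n + 1 ∧ j' / 8 ^ (lam (n + 1) - lam n) = j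
  | .inl _, .inr _ => False

lemma E_irrefl (v : RV) : ¬ E v v := by
  rcases v with ⟨t, i⟩ | ⟨n, j⟩
  · simp [E]
  · simp [E]

/-- the raw graph -/
def G0 : SimpleGraph RV where
  Adj u v := Valid u ∧ Valid v ∧ (E u v ∨ E v u)
  symm := ⟨fun _ _ h => ⟨h.2.1, h.1, h.2.2.symm⟩⟩
  loopless := ⟨fun v h => (h.2.2.elim (E_irrefl v) (E_irrefl v))⟩

/-! ### arithmetic of blocks -/

lemma lam_succ (n : ℕ) : lam (n + 1) = 2 * lam n + 8 := by
  unfold lam
  have : 1 ≤ 2 ^ n := Nat.one_le_two_pow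
  rw [pow_succ]; omega

lemma lam_zero : lam 0 = 0 := by simp [lam]

lemma lam_mono {m n : ℕ} (h : m ≤ n) : lam m ≤ lam n := by
  unfold lam
  have : 2 ^ m ≤ 2 ^ n := Nat.pow_le_pow_right (by norm_num) h
  omega

lemma Nb_eq_iff {t n : ℕ} (ht : 32 ≤ t) : Nb t = n ↔ 32 * 2 ^ n ≤ t ∧ t < 64 * 2 ^ n := by
  unfold Nb
  have h5 : 5 ≤ Nat.log 2 t := by
    have : Nat.log 2 32 ≤ Nat.log 2 t := Nat.log_mono_right ht
    have h : Nat.log 2 32 = 5 := by
      rw [show (32 : ℕ) = 2 ^ 5 by norm_num, Nat.log_pow (by norm_num)]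
    omega
  have h0 : t ≠ 0 := by omega
  have key : Nat.log 2 t = n + 5 ↔ 2 ^ (n + 5) ≤ t ∧ t < 2 ^ (n + 5 + 1) :=
    Nat.log_eq_iff (Or.inr ⟨by norm_num, h0⟩)
  have e1 : 2 ^ (n + 5) = 32 * 2 ^ n := by rw [pow_add]; ring
  have e2 : 2 ^ (n + 5 + 1) = 64 * 2 ^ n := by rw [pow_add, pow_add]; ring
  rw [e1, e2] at key
  rw [← key]; omega

lemma Nb_le {t : ℕ} (ht : 32 ≤ t) : 32 * 2 ^ Nb t ≤ t := ((Nb_eq_iff ht).1 rfl).1

lemma lt_Nb {t : ℕ} (ht : 32 ≤ t) : t < 64 * 2 ^ Nb t := ((Nb_eq_iff ht).1 rfl).2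

lemma Nb_mono {s t : ℕ} (h : s ≤ t) : Nb s ≤ Nb t := by
  unfold Nb
  have := Nat.log_mono_right (b := 2) h
  omega

lemma Nb_succ_le {t : ℕ} (ht : 32 ≤ t) : Nb (t + 1) ≤ Nb t + 1 := by
  by_contra hc
  push_neg at hc
  have h1 := Nb_le (t := t + 1) (by omega)
  have h2 := lt_Nb ht
  have h3 : 2 ^ (Nb t + 2) ≤ 2 ^ Nb (t + 1) := Nat.pow_le_pow_right (by norm_num) hc
  have h4 : 2 ^ (Nb t + 2) = 4 * 2 ^ Nb t := by rw [pow_add]; ring
  have : 1 ≤ 2 ^ Nb t := Nat.one_le_two_pow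
  omega

/-- `lam (Nb t) ≤ t / 4` -/
lemma lam_Nb_le {t : ℕ} (ht : 32 ≤ t) : 4 * lam (Nb t) ≤ t := by
  have := Nb_le ht
  unfold lam; omega

lemma lam_Nb_succ_le {t : ℕ} (ht : 32 ≤ t) : lam (Nb (t + 1)) ≤ t := by
  have h1 := lam_mono (Nb_succ_le ht)
  rw [lam_succ] at h1
  have h2 := lam_Nb_le ht
  omega

lemma lam_Nb_mono {s t : ℕ} (h : s ≤ t) : lam (Nb s) ≤ lam (Nb t) := lam_mono (Nb_mono h)

lemma wd_pos (t : ℕ) : 0 < wd t := by unfold wd; positivity

lemma wd_succ {t : ℕ} (ht : 32 ≤ t) : wd (t + 1) = 8 * 8 ^ (t - lam (Nb (t + 1))) := by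
  unfold wd
  have := lam_Nb_succ_le ht
  rw [← pow_succ']; congr 1; omega

/-- the cells `i` and `i + 1` are in different strips when `i + 1` is a multiple of a wider width -/
lemma not_same {t a i : ℕ} (ha : lam (Nb t) ≥ a) (hat : lam (Nb t) ≤ t)
    (hd : 8 ^ (t - a) ∣ i + 1) : i / wd t ≠ (i + 1) / wd t := by
  intro h
  have hd' : wd t ∣ i + 1 := by
    refine dvd_trans ?_ hd
    unfold wd
    exact pow_dvd_pow _ (by omega)
  obtain ⟨m, hm⟩ := hd'
  have hw := wd_pos t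
  have h1 : (i + 1) / wd t = m := by rw [hm]; exact Nat.mul_div_cancel_left _ hw
  have h2 : m * wd t ≤ i := by
    have : (i + 1) / wd t * wd t ≤ i := by
      rw [← h]; exact Nat.div_mul_le_self _ _
    rwa [h1] at this
  have : m * wd t = i + 1 := by rw [hm]; ring
  omega

end Pool.Agent.H728R3
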