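import Mathlib
import Pool.Agent.H728R3.Defs

set_option autoImplicit false

namespace Pool.Agent.H728R3

/-! ### the drawing -/

/-- the key of a vertex: its abscissa, up to an order embedding -/
def key : RV → ℚ ×ₗ WithTop ℕ
  | .inl (t, i) => toLex ((i : ℚ) / 8 ^ t, ⊤)
  | .inr (n, j) => toLex ((j : ℚ) / 8 ^ lam n, (n : WithTop ℕ))

instance : Countable (ℚ ×ₗ WithTop ℕ) := by
  have : Countable (WithTop ℕ) := inferInstanceAs (Countable (Option ℕ))
  exact inferInstanceAs (Countable (ℚ × WithTop ℕ))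

/-- an order embedding of the keys in the rationals -/
noncomputable def emb : (ℚ ×ₗ WithTop ℕ) ↪o ℚ :=
  Classical.choice (Order.embedding_from_countable_to_dense _ _)

/-- abscissa -/
noncomputable def X (v : RV) : ℝ := (emb (key v) : ℝ)

/-- ordinate -/
noncomputable def Y : RV → ℝ
  | .inl (t, _) => 1 / ((t : ℝ) + 1)
  | .inr _ => 0

/-- edges between hubs are drawn in the lower half plane -/
def chi : RV → RV → ℝ
  | .inr _, .inr _ => 1
  | _, _ => 0

/-- the place of a vertex -/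
noncomputable def pl (v : RV) : ℂ := ⟨X v, Y v⟩

/-- the curve of an edge -/
noncomputable def cu (u v : RV) (s : ℝ) : ℂ :=
  ⟨(1 - s) * X u + s * X v, (1 - s) * Y u + s * Y v - chi u v * (s * (1 - s) * (X v - X u) ^ 2)⟩

lemma X_lt_iff {u v : RV} : X u < X v ↔ key u < key v := by
  unfold X
  rw [Rat.cast_lt]
  exact emb.lt_iff_lt

lemma X_eq_iff {u v : RV} : X u = X v ↔ key u = key v := by
  unfold X
  rw [Rat.cast_inj]
  exact emb.injective.eq_iff

lemma rat_lt {a b s t : ℕ} : ((a : ℚ) / 8 ^ s < (b : ℚ) / 8 ^ t) ↔ a * 8 ^ t < b * 8 ^ s := by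
  rw [div_lt_div_iff₀ (by positivity) (by positivity)]
  exact_mod_cast Iff.rfl

lemma rat_eq {a b s t : ℕ} : ((a : ℚ) / 8 ^ s = (b : ℚ) / 8 ^ t) ↔ a * 8 ^ t = b * 8 ^ s := by
  rw [div_eq_div_iff (by positivity) (by positivity)]
  exact_mod_cast Iff.rfl

lemma X_cc {t i t' i' : ℕ} : X (.inl (t, i)) < X (.inl (t', i')) ↔ i * 8 ^ t' < i' * 8 ^ t := by
  rw [X_lt_iff]
  simp only [key, Prod.Lex.toLex_lt_toLex, rat_lt]
  simp

lemma X_hc {n j t i : ℕ} :
    X (.inr (n, j)) < X (.inl (t, i)) ↔ j * 8 ^ t ≤ i * 8 ^ lam n := by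
  rw [X_lt_iff]
  simp only [key, Prod.Lex.toLex_lt_toLex, rat_lt, rat_eq]
  have h : (n : WithTop ℕ) < ⊤ := WithTop.coe_lt_top n
  constructor
  · rintro (h1 | ⟨h1, -⟩)
    · exact h1.le
    · exact h1.le
  · intro h1
    rcases h1.lt_or_eq with h2 | h2
    · exact Or.inl h2
    · exact Or.inr ⟨h2, h⟩

lemma X_ch {n j t i : ℕ} :
    X (.inl (t, i)) < X (.inr (n, j)) ↔ i * 8 ^ lam n < j * 8 ^ t := by
  rw [X_lt_iff]
  simp only [key, Prod.Lex.toLex_lt_toLex, rat_lt, rat_eq]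
  simp

lemma X_hh {n j m l : ℕ} :
    X (.inr (n, j)) < X (.inr (m, l)) ↔
      j * 8 ^ lam m < l * 8 ^ lam n ∨ (j * 8 ^ lam m = l * 8 ^ lam n ∧ n < m) := by
  rw [X_lt_iff]
  simp only [key, Prod.Lex.toLex_lt_toLex, rat_lt, rat_eq]
  simp

lemma p8 (t : ℕ) : 0 < 8 ^ t := by positivity

lemma X_cc_same {t i i' : ℕ} : X (.inl (t, i)) < X (.inl (t, i')) ↔ i < i' := by
  rw [X_cc]
  exact Nat.mul_lt_mul_right (p8 t)

lemma X_cc_le_same {t i i' : ℕ} (h : i ≤ i') : X (.inl (t, i)) ≤ X (.inl (t, i')) := by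
  by_contra hc
  rw [not_le, X_cc_same] at hc
  omega

lemma split8 {a t : ℕ} (h : a ≤ t) : 8 ^ t = 8 ^ (t - a) * 8 ^ a := by
  rw [← pow_add]; congr 1; omega

lemma X_hc' {n j t i : ℕ} (h : lam n ≤ t) :
    X (.inr (n, j)) < X (.inl (t, i)) ↔ j * 8 ^ (t - lam n) ≤ i := by
  rw [X_hc, split8 h, ← mul_assoc]
  exact Nat.mul_le_mul_right_iff (p8 _)

lemma X_ch' {n j t i : ℕ} (h : lam n ≤ t) :
    X (.inl (t, i)) < X (.inr (n, j)) ↔ i < j * 8 ^ (t - lam n) := by
  rw [X_ch, split8 h, ← mul_assoc]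
  exact Nat.mul_lt_mul_right (p8 _)

lemma cell_ne_hub (n j t i : ℕ) : X (.inl (t, i)) ≠ X (.inr (n, j)) := by
  rw [Ne, X_eq_iff]
  intro h
  have h2 := congrArg (fun z : ℚ ×ₗ WithTop ℕ => (ofLex z).2) h
  simp [key] at h2

lemma Y_pos (t i : ℕ) : 0 < Y (.inl (t, i)) := by
  simp only [Y]; positivity

lemma Y_lt {t i t' i' : ℕ} (h : t < t') : Y (.inl (t', i')) < Y (.inl (t, i)) := by
  simp only [Y]
  have : (t : ℝ) < t' := by exact_mod_cast h
  apply one_div_lt_one_div_of_lt <;> linarith [Nat.cast_nonneg (α := ℝ) t]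

lemma Y_eq {t i t' i' : ℕ} (h : Y (.inl (t', i')) = Y (.inl (t, i))) : t' = t := by
  rcases lt_trichotomy t t' with h1 | h1 | h1
  · exact absurd h (ne_of_lt (Y_lt h1))
  · exact h1.symm
  · exact absurd h.symm (ne_of_lt (Y_lt h1))

lemma pl_inj : Function.Injective pl := by
  intro u v h
  have hx : X u = X v := congrArg Complex.re h
  have hy : Y u = Y v := congrArg Complex.im h
  rcases u with ⟨t, i⟩ | ⟨n, j⟩ <;> rcases v with ⟨t', i'⟩ | ⟨m, l⟩
  · obtain rfl := Y_eq hy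
    have h1 : ¬ i < i' := fun hlt => absurd hx (ne_of_lt (X_cc_same.2 hlt))
    have h2 : ¬ i' < i := fun hlt => absurd hx.symm (ne_of_lt (X_cc_same.2 hlt))
    have : i = i' := by omega
    rw [this]
  · exact absurd hy (ne_of_gt (Y_pos t i))
  · exact absurd hy.symm (ne_of_gt (Y_pos t' i'))
  · have h1 : ¬ X (.inr (n, j)) < X (.inr (m, l)) := by rw [hx]; exact lt_irrefl _
    have h2 : ¬ X (.inr (m, l)) < X (.inr (n, j)) := by rw [hx]; exact lt_irrefl _
    rw [X_hh] at h1 h2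
    have h3 : j * 8 ^ lam m = l * 8 ^ lam n := by omega
    have hnm : n = m := by omega
    subst hnm
    have := Nat.eq_of_mul_eq_mul_right (p8 _) h3
    rw [this]

end Pool.Agent.H728R3
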