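import Mathlib
import Pool.Agent.H728R3.Planar

set_option autoImplicit false

namespace Pool.Agent.H728R3

lemma betw {a b s : ℝ} (h : a < b) (h0 : 0 < s) (h1 : s < 1) :
    a < (1 - s) * a + s * b ∧ (1 - s) * a + s * b < b := by
  constructor <;> nlinarith [mul_pos h0 (sub_pos.2 h), mul_pos (sub_pos.2 h1) (sub_pos.2 h)]

lemma betw' {a b s : ℝ} (h : a ≤ b) (h0 : 0 < s) (h1 : s < 1) :
    a ≤ (1 - s) * a + s * b ∧ (1 - s) * a + s * b ≤ b := by
  constructor <;>
    nlinarith [mul_nonneg h0.le (sub_nonneg.2 h), mul_nonneg (sub_pos.2 h1).le (sub_nonneg.2 h)]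

/-- the condition defining the edges from a level to the next one -/
def DD (t i i' : ℕ) : Prop :=
  i' / 8 = i ∨ (i' = 8 * i + 8 ∧ (8 * i + 7) / wd (t + 1) = (8 * i + 8) / wd (t + 1))

lemma DD.bounds {t i i' : ℕ} (h : DD t i i') : 8 * i ≤ i' ∧ i' ≤ 8 * i + 8 := by
  rcases h with h | ⟨h, -⟩ <;> omega

lemma X_down {t i i' : ℕ} (h : 8 * i ≤ i') : X (.inl (t, i)) ≤ X (.inl (t + 1, i')) := by
  by_contra hc
  rw [not_le, X_cc, pow_succ] at hc
  have : 8 * i * 8 ^ t ≤ i' * 8 ^ t := Nat.mul_le_mul_right _ h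
  nlinarith [this, hc]

lemma hh_cross {t i l : ℕ} {s s' : ℝ} (h0 : 0 < s) (h1 : s < 1) (h0' : 0 < s') (h1' : s' < 1)
    (h : (1 - s) * X (.inl (t, i)) + s * X (.inl (t, i + 1)) =
      (1 - s') * X (.inl (t, l)) + s' * X (.inl (t, l + 1))) : i = l := by
  have a1 := betw (X_cc_same.2 (Nat.lt_succ_self i) : X (.inl (t, i)) < X (.inl (t, i + 1))) h0 h1
  have a2 := betw (X_cc_same.2 (Nat.lt_succ_self l) : X (.inl (t, l)) < X (.inl (t, l + 1))) h0' h1'
  have b1 : X (.inl (t, i)) < X (.inl (t, l + 1)) := by linarith [a1.1, a2.2]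
  have b2 : X (.inl (t, l)) < X (.inl (t, i + 1)) := by linarith [a1.2, a2.1]
  rw [X_cc_same] at b1 b2
  omega

lemma Y_le {t i t' i' : ℕ} (h : t ≤ t') : Y (.inl (t', i')) ≤ Y (.inl (t, i)) := by
  rcases h.lt_or_eq with h1 | rfl
  · exact (Y_lt h1).le
  · exact le_refl _

lemma Y_indep (t i i' : ℕ) : Y (.inl (t, i)) = Y (.inl (t, i')) := rfl

/-- ordinates of the interior points of a descending edge -/
lemma d_between {t i i' : ℕ} {s : ℝ} (h0 : 0 < s) (h1 : s < 1) :
    Y (.inl (t + 1, i')) < (1 - s) * Y (.inl (t, i)) + s * Y (.inl (t + 1, i')) ∧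
    (1 - s) * Y (.inl (t, i)) + s * Y (.inl (t + 1, i')) < Y (.inl (t, i)) := by
  have h : Y (.inl (t + 1, i')) < Y (.inl (t, i)) := Y_lt (Nat.lt_succ_self t)
  constructor <;> nlinarith [mul_pos h0 (sub_pos.2 h), mul_pos (sub_pos.2 h1) (sub_pos.2 h)]

lemma hd_cross {t i t' l l' : ℕ} {s' : ℝ} (h0' : 0 < s') (h1' : s' < 1)
    (h : Y (.inl (t, i)) = (1 - s') * Y (.inl (t', l)) + s' * Y (.inl (t' + 1, l'))) : False := by
  have a := d_between (t := t') (i := l) (i' := l') h0' h1'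
  rcases Nat.lt_or_ge t' t with h2 | h2
  · have : Y (.inl (t, i)) ≤ Y (.inl (t' + 1, l')) := Y_le h2
    linarith [a.1]
  · have : Y (.inl (t', l)) ≤ Y (.inl (t, i)) := Y_le h2
    linarith [a.2]

lemma dd_cross {t i i' t' l l' : ℕ} {s s' : ℝ} (h0 : 0 < s) (h1 : s < 1) (h0' : 0 < s')
    (h1' : s' < 1) (hd : DD t i i') (hd' : DD t' l l')
    (hx : (1 - s) * X (.inl (t, i)) + s * X (.inl (t + 1, i')) =
      (1 - s') * X (.inl (t', l)) + s' * X (.inl (t' + 1, l')))
    (hy : (1 - s) * Y (.inl (t, i)) + s * Y (.inl (t + 1, i')) =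
      (1 - s') * Y (.inl (t', l)) + s' * Y (.inl (t' + 1, l'))) :
    t = t' ∧ i = l ∧ i' = l' := by
  have a := d_between (t := t) (i := i) (i' := i') h0 h1
  have a' := d_between (t := t') (i := l) (i' := l') h0' h1'
  have htt : t = t' := by
    rcases lt_trichotomy t t' with h | h | h
    · have : Y (.inl (t', l)) ≤ Y (.inl (t + 1, i')) := Y_le h
      linarith [a.1, a'.2]
    · exact h
    · have : Y (.inl (t, i)) ≤ Y (.inl (t' + 1, l')) := Y_le h
      linarith [a.2, a'.1]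
  subst htt
  have hY : Y (.inl (t + 1, i')) < Y (.inl (t, i)) := Y_lt (Nat.lt_succ_self t)
  have hss : s = s' := by
    rw [Y_indep t l i, Y_indep (t + 1) l' i'] at hy
    have : (s - s') * (Y (.inl (t, i)) - Y (.inl (t + 1, i'))) = 0 := by linarith
    rcases mul_eq_zero.1 this with h | h
    · linarith
    · linarith
  subst hss
  have key1 : ∀ {i i' l l' : ℕ}, DD t i i' → DD t l l' → i < l →
      (1 - s) * X (.inl (t, i)) + s * X (.inl (t + 1, i')) <
      (1 - s) * X (.inl (t, l)) + s * X (.inl (t + 1, l')) := by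
    intro i i' l l' h h' hlt
    have e1 : X (.inl (t, i)) < X (.inl (t, l)) := X_cc_same.2 hlt
    have e2 : X (.inl (t + 1, i')) ≤ X (.inl (t + 1, l')) := by
      apply X_cc_le_same
      have := h.bounds
      have := h'.bounds
      omega
    nlinarith [mul_pos (sub_pos.2 h1) (sub_pos.2 e1), mul_nonneg h0.le (sub_nonneg.2 e2)]
  rcases lt_trichotomy i l with h | h | h
  · exact absurd hx (ne_of_lt (key1 hd hd' h))
  · subst h
    refine ⟨rfl, rfl, ?_⟩
    have : X (.inl (t + 1, i')) = X (.inl (t + 1, l')) := by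
      have : s * X (.inl (t + 1, i')) = s * X (.inl (t + 1, l')) := by linarith
      exact mul_left_cancel₀ h0.ne' this
    have h2 : ¬ i' < l' := fun hlt => absurd this (ne_of_lt (X_cc_same.2 hlt))
    have h3 : ¬ l' < i' := fun hlt => absurd this.symm (ne_of_lt (X_cc_same.2 hlt))
    omega
  · exact absurd hx.symm (ne_of_lt (key1 hd' hd h))

/-- a hub is just to the left of its column -/
lemma hub_col {n j t : ℕ} (hn : Nb t = n) (ht : 32 ≤ t) :
    X (.inr (n, j)) < X (.inl (t, j * wd t)) := by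
  subst hn
  rw [X_hc' (by have := lam_Nb_le ht; omega)]
  exact le_of_eq rfl

/-- cells of lower levels on the column of a hub have the same abscissa -/
lemma col_eq {n j t t' : ℕ} (hn : lam n ≤ t) (hn' : lam n ≤ t') :
    X (.inl (t, j * 8 ^ (t - lam n))) = X (.inl (t', j * 8 ^ (t' - lam n))) := by
  have key1 : ∀ {t t' : ℕ}, lam n ≤ t → lam n ≤ t' →
      ¬ X (.inl (t, j * 8 ^ (t - lam n))) < X (.inl (t', j * 8 ^ (t' - lam n))) := by
    intro t t' h h' hc
    rw [X_cc] at hc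
    have e1 : 8 ^ (t - lam n) * 8 ^ t' = 8 ^ (t' - lam n) * 8 ^ t := by
      rw [← pow_add, ← pow_add]; congr 1; omega
    rw [mul_assoc, mul_assoc, e1] at hc
    exact lt_irrefl _ hc
  exact le_antisymm (not_lt.1 (key1 hn' hn)) (not_lt.1 (key1 hn hn'))

/-- strictly between a hub and its column there is no cell -/
lemma gap {n j t t' i : ℕ} (hn : lam n ≤ t) (hn' : lam n ≤ t')
    (h1 : X (.inr (n, j)) < X (.inl (t', i))) :
    X (.inl (t, j * 8 ^ (t - lam n))) ≤ X (.inl (t', i)) := by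
  rw [X_hc' hn'] at h1
  rw [col_eq hn hn']
  exact X_cc_le_same h1

lemma hl_cross {t i n j t' : ℕ} {s s' : ℝ} (ht : 32 ≤ t) (ht' : 32 ≤ t')
    (h0 : 0 < s) (h1 : s < 1) (h0' : 0 < s') (h1' : s' < 1)
    (hz : i / wd t = (i + 1) / wd t) (hn : Nb t' = n)
    (hx : (1 - s) * X (.inl (t, i)) + s * X (.inl (t, i + 1)) =
      (1 - s') * X (.inr (n, j)) + s' * X (.inl (t', j * wd t')))
    (hy : Y (.inl (t, i)) = s' * Y (.inl (t', j * wd t'))) : False := by
  have hl' := lam_Nb_le ht'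
  have hl := lam_Nb_le ht
  rw [hn] at hl'
  have htt : t' < t := by
    by_contra hc
    have h2 : Y (.inl (t', j * wd t')) ≤ Y (.inl (t, i)) := Y_le (not_lt.1 hc)
    have h3 := Y_pos t' (j * wd t')
    nlinarith [mul_pos (sub_pos.2 h1') h3]
  have hlam : lam n ≤ lam (Nb t) := by rw [← hn]; exact lam_Nb_mono htt.le
  have a1 := betw (X_cc_same.2 (Nat.lt_succ_self i) : X (.inl (t, i)) < X (.inl (t, i + 1))) h0 h1
  have a2 := betw (hub_col (j := j) hn ht') h0' h1'
  have hw : wd t' = 8 ^ (t' - lam n) := by unfold wd; rw [hn]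
  have b1 : X (.inl (t, i)) < X (.inl (t', j * wd t')) := by linarith [a1.1, a2.2]
  have b2 : X (.inr (n, j)) < X (.inl (t, i + 1)) := by linarith [a1.2, a2.1]
  rw [hw, col_eq (n := n) (t := t') (t' := t) (by omega) (by omega), X_cc_same] at b1
  rw [X_hc' (by omega)] at b2
  have e : i + 1 = j * 8 ^ (t - lam n) := by omega
  exact not_same (a := lam n) hlam (by omega) (by rw [e]; exact dvd_mul_left _ _) hz

lemma dl_cross {t i i' n j t' : ℕ} {s s' : ℝ} (ht : 32 ≤ t) (ht' : 32 ≤ t')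
    (h0 : 0 < s) (h1 : s < 1) (h0' : 0 < s') (h1' : s' < 1)
    (hd : DD t i i') (hn : Nb t' = n)
    (hx : (1 - s) * X (.inl (t, i)) + s * X (.inl (t + 1, i')) =
      (1 - s') * X (.inr (n, j)) + s' * X (.inl (t', j * wd t')))
    (hy : (1 - s) * Y (.inl (t, i)) + s * Y (.inl (t + 1, i')) =
      s' * Y (.inl (t', j * wd t'))) : False := by
  have hl' := lam_Nb_le ht'
  have hl := lam_Nb_le ht
  rw [hn] at hl'
  have htt : t' ≤ t := by
    by_contra hc
    have h2 : Y (.inl (t', j * wd t')) ≤ Y (.inl (t + 1, i')) := Y_le (not_le.1 hc)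
    have h3 := Y_pos t' (j * wd t')
    have h4 := (d_between (t := t) (i := i) (i' := i') h0 h1).1
    nlinarith [mul_pos (sub_pos.2 h1') h3]
  have hlam : lam n ≤ lam (Nb t) := by rw [← hn]; exact lam_Nb_mono htt
  have hlam2 : lam (Nb t) ≤ lam (Nb (t + 1)) := lam_Nb_mono (Nat.le_succ t)
  have a1 := betw' (X_down (t := t) hd.bounds.1) h0 h1
  have a2 := betw (hub_col (j := j) hn ht') h0' h1'
  have hw : wd t' = 8 ^ (t' - lam n) := by unfold wd; rw [hn]
  have b1 : X (.inl (t, i)) < X (.inl (t', j * wd t')) := by linarith [a1.1, a2.2]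
  have b2 : X (.inr (n, j)) < X (.inl (t + 1, i')) := by linarith [a1.2, a2.1]
  rw [hw, col_eq (n := n) (t := t') (t' := t) (by omega) (by omega), X_cc_same] at b1
  rw [X_hc' (by omega)] at b2
  have e8 : 8 ^ (t + 1 - lam n) = 8 * 8 ^ (t - lam n) := by
    rw [← pow_succ']; congr 1; omega
  rw [e8] at b2
  have b3 : 8 * (j * 8 ^ (t - lam n)) ≤ i' := by linarith
  rcases hd with hd | ⟨hd, hz⟩
  · omega
  · have e : i + 1 = j * 8 ^ (t - lam n) := by omega
    have e' : 8 * i + 7 + 1 = j * 8 ^ (t + 1 - lam n) := by rw [e8]; linarith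
    have hq : (8 * i + 7) / wd (t + 1) = (8 * i + 7 + 1) / wd (t + 1) := hz
    have h5 := lam_Nb_succ_le ht
    exact not_same (a := lam n) (hlam.trans hlam2) (by omega)
      (by rw [e']; exact dvd_mul_left _ _) hq

/-- order of the keys of two hubs -/
lemma hub_lt_cases {n j m l : ℕ} :
    X (.inr (n, j)) < X (.inr (m, l)) ∨ (n, j) = (m, l) ∨ X (.inr (m, l)) < X (.inr (n, j)) := by
  rcases lt_trichotomy (X (.inr (n, j))) (X (.inr (m, l))) with h | h | h
  · exact Or.inl h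
  · right; left
    have : pl (.inr (n, j)) = pl (.inr (m, l)) := by
      apply Complex.ext
      · exact h
      · rfl
    have := pl_inj this
    simpa using this
  · exact Or.inr (Or.inr h)

lemma ll_aux {n j t m l t' : ℕ} {s s' : ℝ} (ht : 32 ≤ t) (ht' : 32 ≤ t')
    (h0 : 0 < s) (h1 : s < 1) (h0' : 0 < s') (h1' : s' < 1)
    (hn : Nb t = n) (hm : Nb t' = m)
    (hlt : X (.inr (n, j)) < X (.inr (m, l)))
    (hx : (1 - s) * X (.inr (n, j)) + s * X (.inl (t, j * wd t)) =
      (1 - s') * X (.inr (m, l)) + s' * X (.inl (t', l * wd t')))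
    (hy : s * Y (.inl (t, j * wd t)) = s' * Y (.inl (t', l * wd t'))) : False := by
  have hl' := lam_Nb_le ht'
  have hl := lam_Nb_le ht
  rw [hm] at hl'
  rw [hn] at hl
  have a1 := betw (hub_col (j := j) hn ht) h0 h1
  have a2 := betw (hub_col (j := l) hm ht') h0' h1'
  have hw : wd t = 8 ^ (t - lam n) := by unfold wd; rw [hn]
  have hw' : wd t' = 8 ^ (t' - lam m) := by unfold wd; rw [hm]
  have b1 : X (.inr (m, l)) < X (.inl (t, j * wd t)) := by linarith [a1.2, a2.1]
  rw [X_hh] at hlt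
  rw [X_hc, hw] at b1
  have b1' : l * 8 ^ lam n ≤ j * 8 ^ lam m := by
    have : l * 8 ^ t = l * 8 ^ lam n * 8 ^ (t - lam n) := by
      rw [mul_assoc, ← pow_add]; congr 2; omega
    rw [this] at b1
    have : j * 8 ^ (t - lam n) * 8 ^ lam m = j * 8 ^ lam m * 8 ^ (t - lam n) := by ring
    rw [this] at b1
    exact Nat.le_of_mul_le_mul_right b1 (p8 _)
  have e1 : j * 8 ^ lam m = l * 8 ^ lam n := by omega
  have hnm : n < m := by omega
  -- same column
  have htt : t < t' := by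
    by_contra hc
    have := Nb_mono (not_lt.1 hc)
    omega
  have ecol : X (.inl (t, j * wd t)) = X (.inl (t', l * wd t')) := by
    rw [X_eq_iff]
    simp only [key]
    congr 1
    rw [Prod.mk.injEq]
    refine ⟨?_, rfl⟩
    rw [rat_eq, hw, hw']
    have e2 : 8 ^ t' = 8 ^ (t' - lam m) * 8 ^ lam m := split8 (by omega)
    have e3 : 8 ^ t = 8 ^ (t - lam n) * 8 ^ lam n := split8 (by omega)
    rw [e2, e3]
    calc j * 8 ^ (t - lam n) * (8 ^ (t' - lam m) * 8 ^ lam m)
        = (j * 8 ^ lam m) * (8 ^ (t - lam n) * 8 ^ (t' - lam m)) := by ring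
      _ = (l * 8 ^ lam n) * (8 ^ (t - lam n) * 8 ^ (t' - lam m)) := by rw [e1]
      _ = l * 8 ^ (t' - lam m) * (8 ^ (t - lam n) * 8 ^ lam n) := by ring
  have hlt' : X (.inr (n, j)) < X (.inr (m, l)) := X_hh.2 hlt
  have c2 := hub_col (j := l) hm ht'
  rw [ecol] at hx
  have c3 : (1 - s) * (X (.inl (t', l * wd t')) - X (.inr (n, j))) =
      (1 - s') * (X (.inl (t', l * wd t')) - X (.inr (m, l))) := by linarith
  have hss : s' < s := by
    by_contra hc
    have hc' := not_lt.1 hc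
    nlinarith [mul_pos (sub_pos.2 h1) (sub_pos.2 hlt'), mul_nonneg (sub_nonneg.2 hc') (sub_pos.2 c2).le]
  have d1 : Y (.inl (t', l * wd t')) < Y (.inl (t, j * wd t)) := Y_lt htt
  have d2 := Y_pos t' (l * wd t')
  nlinarith [mul_pos h0 (sub_pos.2 d1), mul_pos (sub_pos.2 hss) d2]

lemma ll_cross {n j t m l t' : ℕ} {s s' : ℝ} (ht : 32 ≤ t) (ht' : 32 ≤ t')
    (h0 : 0 < s) (h1 : s < 1) (h0' : 0 < s') (h1' : s' < 1)
    (hn : Nb t = n) (hm : Nb t' = m)
    (hx : (1 - s) * X (.inr (n, j)) + s * X (.inl (t, j * wd t)) =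
      (1 - s') * X (.inr (m, l)) + s' * X (.inl (t', l * wd t')))
    (hy : s * Y (.inl (t, j * wd t)) = s' * Y (.inl (t', l * wd t'))) :
    n = m ∧ j = l ∧ t = t' := by
  rcases hub_lt_cases (n := n) (j := j) (m := m) (l := l) with h | h | h
  · exact (ll_aux ht ht' h0 h1 h0' h1' hn hm h hx hy).elim
  · simp only [Prod.mk.injEq] at h
    obtain ⟨rfl, rfl⟩ := h
    refine ⟨rfl, rfl, ?_⟩
    have hl' := lam_Nb_le ht'
    have hl := lam_Nb_le ht
    have hw : wd t = 8 ^ (t - lam n) := by unfold wd; rw [hn]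
    have hw' : wd t' = 8 ^ (t' - lam n) := by unfold wd; rw [hm]
    have ecol : X (.inl (t, j * wd t)) = X (.inl (t', j * wd t')) := by
      rw [hw, hw']
      have : lam n ≤ t := by rw [← hn]; omega
      have : lam n ≤ t' := by rw [← hm]; omega
      apply col_eq <;> assumption
    have c := hub_col (j := j) hm ht'
    rw [ecol] at hx
    have hss : s = s' := by
      have : (s - s') * (X (.inl (t', j * wd t')) - X (.inr (n, j))) = 0 := by linarith
      rcases mul_eq_zero.1 this with h | h <;> linarith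
    subst hss
    have : Y (.inl (t, j * wd t)) = Y (.inl (t', j * wd t')) := mul_left_cancel₀ h0.ne' hy
    exact Y_eq this
  · obtain ⟨a, b, c⟩ := ll_aux ht' ht h0' h1' h0 h1 hm hn h hx.symm hy.symm

end Pool.Agent.H728R3
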