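import Mathlib
import Pool.Agent.H728R3.Planar2

set_option autoImplicit false

namespace Pool.Agent.H728R3

lemma div_bounds {j1 j d : ℕ} (h : j1 / 8 ^ d = j) : j * 8 ^ d ≤ j1 ∧ j1 < (j + 1) * 8 ^ d := by
  subst h
  constructor
  · exact Nat.div_mul_le_self _ _
  · exact Nat.lt_mul_of_div_lt (Nat.lt_succ_self _) (p8 d)

lemma child_lt {n j j1 : ℕ} (h : j1 / 8 ^ (lam (n + 1) - lam n) = j) :
    X (.inr (n, j)) < X (.inr (n + 1, j1)) := by
  rw [X_hh]
  have h1 := (div_bounds h).1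
  have e : 8 ^ lam (n + 1) = 8 ^ (lam (n + 1) - lam n) * 8 ^ lam n :=
    split8 (lam_mono (Nat.le_succ n))
  have h2 : j * 8 ^ lam (n + 1) ≤ j1 * 8 ^ lam n := by
    rw [e, ← mul_assoc]; exact Nat.mul_le_mul_right _ h1
  omega

lemma nest {n j j1 m l l1 : ℕ} (h : j1 / 8 ^ (lam (n + 1) - lam n) = j)
    (h' : l1 / 8 ^ (lam (m + 1) - lam m) = l)
    (hpq : X (.inr (n, j)) < X (.inr (m, l))) (hqa : X (.inr (m, l)) < X (.inr (n + 1, j1))) :
    X (.inr (m + 1, l1)) < X (.inr (n + 1, j1)) := by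
  rw [X_hh] at hpq hqa ⊢
  have b := div_bounds h
  have b' := div_bounds h'
  have e : 8 ^ lam (n + 1) = 8 ^ (lam (n + 1) - lam n) * 8 ^ lam n :=
    split8 (lam_mono (Nat.le_succ n))
  have e' : 8 ^ lam (m + 1) = 8 ^ (lam (m + 1) - lam m) * 8 ^ lam m :=
    split8 (lam_mono (Nat.le_succ m))
  rcases Nat.lt_or_ge n m with hnm | hnm
  · -- m ≥ n + 1
    left
    have h1 : l * 8 ^ lam (n + 1) < j1 * 8 ^ lam m := by omega
    have e2 : 8 ^ lam m = 8 ^ (lam m - lam (n + 1)) * 8 ^ lam (n + 1) := split8 (lam_mono hnm)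
    have h2 : l < j1 * 8 ^ (lam m - lam (n + 1)) := by
      rw [e2, ← mul_assoc] at h1
      exact Nat.lt_of_mul_lt_mul_right h1
    calc l1 * 8 ^ lam (n + 1) < (l + 1) * 8 ^ (lam (m + 1) - lam m) * 8 ^ lam (n + 1) :=
          Nat.mul_lt_mul_of_pos_right b'.2 (p8 _)
      _ ≤ j1 * 8 ^ (lam m - lam (n + 1)) * 8 ^ (lam (m + 1) - lam m) * 8 ^ lam (n + 1) := by
          apply Nat.mul_le_mul_right
          exact Nat.mul_le_mul_right _ h2
      _ = j1 * 8 ^ lam (m + 1) := by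
          rw [e', e2]; ring
  · exfalso
    have h1 : l * 8 ^ lam (n + 1) ≤ j1 * 8 ^ lam m := by omega
    have e2 : 8 ^ lam n = 8 ^ (lam n - lam m) * 8 ^ lam m := split8 (lam_mono hnm)
    have h2 : l * 8 ^ lam (n + 1) < (j + 1) * 8 ^ (lam (n + 1) - lam n) * 8 ^ lam m :=
      lt_of_le_of_lt h1 (Nat.mul_lt_mul_of_pos_right b.2 (p8 _))
    have h3 : l * 8 ^ (lam n - lam m) < j + 1 := by
      rw [e, e2] at h2
      have e3 : l * (8 ^ (lam (n + 1) - lam n) * (8 ^ (lam n - lam m) * 8 ^ lam m)) =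
          l * 8 ^ (lam n - lam m) * (8 ^ (lam (n + 1) - lam n) * 8 ^ lam m) := by ring
      rw [e3, mul_assoc (j + 1)] at h2
      exact Nat.lt_of_mul_lt_mul_right h2
    have h4 : l * 8 ^ lam n ≤ j * 8 ^ lam m := by
      rw [e2, ← mul_assoc]
      exact Nat.mul_le_mul_right _ (Nat.lt_succ_iff.1 h3)
    omega

lemma tt_aux {n j j1 m l l1 : ℕ} {s s' : ℝ} (h0 : 0 < s) (h1 : s < 1) (h0' : 0 < s')
    (h1' : s' < 1) (h : j1 / 8 ^ (lam (n + 1) - lam n) = j)
    (h' : l1 / 8 ^ (lam (m + 1) - lam m) = l)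
    (hlt : X (.inr (n, j)) < X (.inr (m, l)))
    (hx : (1 - s) * X (.inr (n, j)) + s * X (.inr (n + 1, j1)) =
      (1 - s') * X (.inr (m, l)) + s' * X (.inr (m + 1, l1)))
    (hy : s * (1 - s) * (X (.inr (n + 1, j1)) - X (.inr (n, j))) ^ 2 =
      s' * (1 - s') * (X (.inr (m + 1, l1)) - X (.inr (m, l))) ^ 2) : False := by
  have c := child_lt h
  have c' := child_lt h'
  have a := betw c h0 h1
  have a' := betw c' h0' h1'
  have hqa : X (.inr (m, l)) < X (.inr (n + 1, j1)) := by linarith [a.2, a'.1]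
  have hn := nest h h' hlt hqa
  set A := X (.inr (n, j))
  set B := X (.inr (n + 1, j1))
  set C := X (.inr (m, l))
  set D := X (.inr (m + 1, l1))
  obtain ⟨x, hxd⟩ : ∃ x, x = (1 - s) * A + s * B := ⟨_, rfl⟩
  have hx2 : x = (1 - s') * C + s' * D := by rw [hxd, hx]
  have e1 : s * (1 - s) * (B - A) ^ 2 = (x - A) * (B - x) := by rw [hxd]; ring
  have e2 : s' * (1 - s') * (D - C) ^ 2 = (x - C) * (D - x) := by rw [hx2]; ring
  rw [e1, e2] at hy
  rw [← hxd] at a
  rw [← hx2] at a'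
  nlinarith [mul_pos (sub_pos.2 hlt) (sub_pos.2 a.2), mul_pos (sub_pos.2 a'.1) (sub_pos.2 hn)]

lemma tt_cross {n j j1 m l l1 : ℕ} {s s' : ℝ} (h0 : 0 < s) (h1 : s < 1) (h0' : 0 < s')
    (h1' : s' < 1) (h : j1 / 8 ^ (lam (n + 1) - lam n) = j)
    (h' : l1 / 8 ^ (lam (m + 1) - lam m) = l)
    (hx : (1 - s) * X (.inr (n, j)) + s * X (.inr (n + 1, j1)) =
      (1 - s') * X (.inr (m, l)) + s' * X (.inr (m + 1, l1)))
    (hy : s * (1 - s) * (X (.inr (n + 1, j1)) - X (.inr (n, j))) ^ 2 =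
      s' * (1 - s') * (X (.inr (m + 1, l1)) - X (.inr (m, l))) ^ 2) :
    n = m ∧ j = l ∧ j1 = l1 := by
  rcases hub_lt_cases (n := n) (j := j) (m := m) (l := l) with hc | hc | hc
  · exact (tt_aux h0 h1 h0' h1' h h' hc hx hy).elim
  · simp only [Prod.mk.injEq] at hc
    obtain ⟨rfl, rfl⟩ := hc
    refine ⟨rfl, rfl, ?_⟩
    have c := child_lt h
    have c' := child_lt h'
    have a := betw c h0 h1
    have hE : X (.inr (n + 1, j1)) = X (.inr (n + 1, l1)) := by
      set A := X (.inr (n, j))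
      set B := X (.inr (n + 1, j1))
      set D := X (.inr (n + 1, l1))
      obtain ⟨x, hxd⟩ : ∃ x, x = (1 - s) * A + s * B := ⟨_, rfl⟩
      have hx2 : x = (1 - s') * A + s' * D := by rw [hxd, hx]
      have e1 : s * (1 - s) * (B - A) ^ 2 = (x - A) * (B - x) := by rw [hxd]; ring
      have e2 : s' * (1 - s') * (D - A) ^ 2 = (x - A) * (D - x) := by rw [hx2]; ring
      rw [e1, e2] at hy
      rw [← hxd] at a
      have hp : x - A ≠ 0 := (sub_pos.2 a.1).ne'
      have := mul_left_cancel₀ hp hy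
      linarith
    rcases hub_lt_cases (n := n + 1) (j := j1) (m := n + 1) (l := l1) with h2 | h2 | h2
    · exact absurd hE (ne_of_lt h2)
    · simpa using h2
    · exact absurd hE.symm (ne_of_lt h2)
  · exact (tt_aux h0' h1' h0 h1 h' h hc hx.symm hy.symm).elim

/-! ### summary -/

lemma cu_zero (u v : RV) : cu u v 0 = pl u := by
  simp [cu, pl]

lemma cu_one (u v : RV) : cu u v 1 = pl v := by
  simp [cu, pl]

lemma chi_symm (u v : RV) : chi u v = chi v u := by
  rcases u with ⟨t, i⟩ | ⟨n, j⟩ <;> rcases v with ⟨t', i'⟩ | ⟨m, l⟩ <;> rfl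

lemma cu_symm (u v : RV) (s : ℝ) : cu v u s = cu u v (1 - s) := by
  unfold cu
  rw [chi_symm v u]
  apply Complex.ext
  · simp only; ring
  · simp only; ring

lemma cu_cont (u v : RV) : Continuous (cu u v) := by
  have h : Continuous (fun s : ℝ => (((1 - s) * X u + s * X v,
      (1 - s) * Y u + s * Y v - chi u v * (s * (1 - s) * (X v - X u) ^ 2)) : ℝ × ℝ)) := by
    fun_prop
  exact Complex.equivRealProdCLM.symm.continuous.comp h

lemma cu_inj {u v : RV} (h : u ≠ v) : Function.Injective (cu u v) := by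
  intro s s' hs
  have hx : (1 - s) * X u + s * X v = (1 - s') * X u + s' * X v := congrArg Complex.re hs
  have hy : (1 - s) * Y u + s * Y v - chi u v * (s * (1 - s) * (X v - X u) ^ 2) =
    (1 - s') * Y u + s' * Y v - chi u v * (s' * (1 - s') * (X v - X u) ^ 2) :=
    congrArg Complex.im hs
  by_cases hX : X u = X v
  · rw [hX, sub_self] at hy
    have hY : Y u ≠ Y v := by
      intro hY
      apply h
      apply pl_inj
      exact Complex.ext hX hY
    have : (s - s') * (Y v - Y u) = 0 := by ring_nf at hy ⊢; linarith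
    rcases mul_eq_zero.1 this with h2 | h2
    · linarith
    · exact absurd (by linarith : Y u = Y v) hY
  · have : (s - s') * (X v - X u) = 0 := by linarith
    rcases mul_eq_zero.1 this with h2 | h2
    · linarith
    · exact absurd (by linarith : X u = X v) hX

theorem noncross {u v u' v' : RV} (hu : Valid u) (hv : Valid v) (hu' : Valid u')
    (hv' : Valid v') (h : E u v) (h' : E u' v') {s s' : ℝ} (hs : s ∈ Set.Ioo (0 : ℝ) 1)
    (hs' : s' ∈ Set.Ioo (0 : ℝ) 1) (heq : cu u v s = cu u' v' s') : u = u' ∧ v = v' := by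
  obtain ⟨h0, h1⟩ := hs
  obtain ⟨h0', h1'⟩ := hs'
  have hx : (1 - s) * X u + s * X v = (1 - s') * X u' + s' * X v' := congrArg Complex.re heq
  have hy : (1 - s) * Y u + s * Y v - chi u v * (s * (1 - s) * (X v - X u) ^ 2) =
    (1 - s') * Y u' + s' * Y v' - chi u' v' * (s' * (1 - s') * (X v' - X u') ^ 2) :=
    congrArg Complex.im heq
  -- the ordinate of an interior point of an arc between hubs is negative
  have neg : ∀ {n j m l : ℕ} {r : ℝ}, 0 < r → r < 1 → E (.inr (n, j)) (.inr (m, l)) →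
      0 < r * (1 - r) * (X (.inr (m, l)) - X (.inr (n, j))) ^ 2 := by
    intro n j m l r hr0 hr1 hE
    obtain ⟨rfl, hE⟩ := hE
    have c := child_lt hE
    have := sub_pos.2 c
    have := sub_pos.2 hr1
    positivity
  rcases u with ⟨t, i⟩ | ⟨n, j⟩ <;> rcases v with ⟨t2, i2⟩ | ⟨n2, j2⟩
  · -- first edge between cells
    rcases u' with ⟨t', l⟩ | ⟨m, l⟩ <;> rcases v' with ⟨t2', l2⟩ | ⟨m2, l2⟩
    · simp only [chi, zero_mul, sub_zero] at hy
      rcases h with ⟨ht, rfl, hz⟩ | ⟨rfl, hd⟩ <;> rcases h' with ⟨ht', rfl, hz'⟩ | ⟨rfl, hd'⟩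
      · have ht := ht.symm
        have ht' := ht'.symm
        subst ht ht'
        have ht : t = t' := by
          have : Y (.inl (t, i)) = Y (.inl (t', l)) := by
            rw [Y_indep t (i + 1) i, Y_indep t' (l + 1) l] at hy; linarith
          exact Y_eq this
        subst ht
        have := hh_cross h0 h1 h0' h1' hx
        subst this
        exact ⟨rfl, rfl⟩
      · exfalso
        have ht := ht.symm
        subst ht
        refine hd_cross (t := t) (i := i) (t' := t') (l := l) (l' := l2) h0' h1' ?_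
        rw [Y_indep t (i + 1) i] at hy; linarith
      · exfalso
        have ht' := ht'.symm
        subst ht'
        refine hd_cross (t := t') (i := l) (t' := t) (l := i) (l' := i2) h0 h1 ?_
        rw [Y_indep t' (l + 1) l] at hy; linarith
      · obtain ⟨rfl, rfl, rfl⟩ := dd_cross h0 h1 h0' h1' hd hd' hx hy
        exact ⟨rfl, rfl⟩
    · exact h'.elim
    · obtain ⟨hm, rfl⟩ := h'
      simp only [chi, zero_mul, sub_zero] at hy
      exfalso
      rcases h with ⟨ht, rfl, hz⟩ | ⟨rfl, hd⟩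
      · have ht := ht.symm
        subst ht
        refine hl_cross hu.1 hv'.1 h0 h1 h0' h1' hz hm hx ?_
        rw [Y_indep t (i + 1) i] at hy
        simp only [Y, mul_zero, zero_add] at hy ⊢
        linarith
      · refine dl_cross hu.1 hv'.1 h0 h1 h0' h1' hd hm hx ?_
        rw [hy]; simp [Y]
    · exfalso
      have hn := neg h0' h1' h'
      have y1 : 0 < Y (.inl (t, i)) := Y_pos _ _
      have y2 : 0 < Y (.inl (t2, i2)) := Y_pos _ _
      have e1 : chi (.inl (t, i)) (.inl (t2, i2)) = 0 := rfl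
      have e2 : chi (.inr (m, l)) (.inr (m2, l2)) = 1 := rfl
      have e3 : Y (.inr (m, l)) = 0 := rfl
      have e4 : Y (.inr (m2, l2)) = 0 := rfl
      rw [e1, e2, e3, e4] at hy
      nlinarith [mul_pos h0 y2, mul_pos (sub_pos.2 h1) y1]
  · exact h.elim
  · -- first edge from a hub to its column
    obtain ⟨hn, rfl⟩ := h
    rcases u' with ⟨t', l⟩ | ⟨m, l⟩ <;> rcases v' with ⟨t2', l2⟩ | ⟨m2, l2⟩
    · exfalso
      simp only [chi, zero_mul, sub_zero] at hy
      rcases h' with ⟨ht, rfl, hz⟩ | ⟨rfl, hd⟩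
      · have ht := ht.symm
        subst ht
        refine hl_cross hu'.1 hv.1 h0' h1' h0 h1 hz hn hx.symm ?_
        rw [Y_indep t' (l + 1) l] at hy
        simp only [Y, mul_zero, zero_add] at hy ⊢
        linarith
      · refine dl_cross hu'.1 hv.1 h0' h1' h0 h1 hd hn hx.symm ?_
        rw [← hy]; simp [Y]
    · exact h'.elim
    · obtain ⟨hm, rfl⟩ := h'
      simp only [chi, zero_mul, sub_zero] at hy
      have hy' : s * Y (.inl (t2, j * wd t2)) = s' * Y (.inl (t2', l * wd t2')) := by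
        simp only [Y, mul_zero, zero_add] at hy ⊢
        exact hy
      obtain ⟨rfl, rfl, rfl⟩ := ll_cross hv.1 hv'.1 h0 h1 h0' h1' hn hm hx hy'
      exact ⟨rfl, rfl⟩
    · exfalso
      have hn := neg h0' h1' h'
      have y2 : 0 < Y (.inl (t2, j * wd t2)) := Y_pos _ _
      have e1 : chi (.inr (n, j)) (.inl (t2, j * wd t2)) = 0 := rfl
      have e2 : chi (.inr (m, l)) (.inr (m2, l2)) = 1 := rfl
      have e3 : Y (.inr (m, l)) = 0 := rfl
      have e4 : Y (.inr (m2, l2)) = 0 := rfl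
      have e5 : Y (.inr (n, j)) = 0 := rfl
      rw [e1, e2, e3, e4, e5] at hy
      nlinarith [mul_pos h0 y2]
  · -- first edge between hubs
    have hn := neg h0 h1 h
    have e1 : chi (.inr (n, j)) (.inr (n2, j2)) = 1 := rfl
    have e3 : Y (.inr (n, j)) = 0 := rfl
    have e4 : Y (.inr (n2, j2)) = 0 := rfl
    rw [e1, e3, e4] at hy
    rcases u' with ⟨t', l⟩ | ⟨m, l⟩ <;> rcases v' with ⟨t2', l2⟩ | ⟨m2, l2⟩
    · exfalso
      have y1 : 0 < Y (.inl (t', l)) := Y_pos _ _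
      have y2 : 0 < Y (.inl (t2', l2)) := Y_pos _ _
      have e2 : chi (.inl (t', l)) (.inl (t2', l2)) = 0 := rfl
      rw [e2] at hy
      nlinarith [mul_pos h0' y2, mul_pos (sub_pos.2 h1') y1]
    · exact h'.elim
    · exfalso
      have y2 : 0 < Y (.inl (t2', l2)) := Y_pos _ _
      have e2 : chi (.inr (m, l)) (.inl (t2', l2)) = 0 := rfl
      have e5 : Y (.inr (m, l)) = 0 := rfl
      rw [e2, e5] at hy
      nlinarith [mul_pos h0' y2]
    · have e2 : chi (.inr (m, l)) (.inr (m2, l2)) = 1 := rfl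
      have e5 : Y (.inr (m, l)) = 0 := rfl
      have e6 : Y (.inr (m2, l2)) = 0 := rfl
      rw [e2, e5, e6] at hy
      obtain ⟨rfl, hE⟩ := h
      obtain ⟨rfl, hE'⟩ := h'
      obtain ⟨rfl, rfl, rfl⟩ := tt_cross h0 h1 h0' h1' hE hE' hx (by linarith)
      exact ⟨rfl, rfl⟩

end Pool.Agent.H728R3
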