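import Mathlib
import Pool.Agent.H728R3.Planar3

set_option autoImplicit false

namespace Pool.Agent.H728R3

theorem avoid {u v : RV} (hu : Valid u) (hv : Valid v) (h : E u v) {s : ℝ}
    (hs : s ∈ Set.Ioo (0 : ℝ) 1) (w : RV) (hw : Valid w) : cu u v s ≠ pl w := by
  intro heq
  obtain ⟨h0, h1⟩ := hs
  have hx : (1 - s) * X u + s * X v = X w := congrArg Complex.re heq
  have hy : (1 - s) * Y u + s * Y v - chi u v * (s * (1 - s) * (X v - X u) ^ 2) = Y w :=
    congrArg Complex.im heq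
  rcases u with ⟨t, i⟩ | ⟨n, j⟩ <;> rcases v with ⟨t2, i2⟩ | ⟨n2, j2⟩
  · simp only [chi, zero_mul, sub_zero] at hy
    rcases h with ⟨ht, rfl, hz⟩ | ⟨rfl, hd⟩
    · have ht := ht.symm
      subst ht
      rw [Y_indep t (i + 1) i] at hy
      have hy' : Y (.inl (t, i)) = Y w := by linarith
      rcases w with ⟨t', l⟩ | ⟨m, l⟩
      · obtain rfl := Y_eq hy'
        have a := betw (X_cc_same.2 (Nat.lt_succ_self i) :
          X (.inl (t, i)) < X (.inl (t, i + 1))) h0 h1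
        rw [hx, X_cc_same, X_cc_same] at a
        omega
      · exact absurd hy' (ne_of_gt (Y_pos t i))
    · have a := d_between (t := t) (i := i) (i' := i2) h0 h1
      rw [hy] at a
      rcases w with ⟨t', l⟩ | ⟨m, l⟩
      · rcases Nat.lt_or_ge t t' with h2 | h2
        · have : Y (.inl (t', l)) ≤ Y (.inl (t + 1, i2)) := Y_le h2
          linarith [a.1]
        · have : Y (.inl (t, i)) ≤ Y (.inl (t', l)) := Y_le h2
          linarith [a.2]
      · have h3 := Y_pos (t + 1) i2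
        have h4 : Y (.inr (m, l)) = 0 := rfl
        linarith [a.1]
  · exact h.elim
  · obtain ⟨hn, rfl⟩ := h
    simp only [chi, zero_mul, sub_zero] at hy
    have e5 : Y (.inr (n, j)) = 0 := rfl
    rw [e5, mul_zero, zero_add] at hy
    have h3 := Y_pos t2 (j * wd t2)
    rcases w with ⟨t', l⟩ | ⟨m, l⟩
    · have htt : t2 < t' := by
        by_contra hc
        have : Y (.inl (t2, j * wd t2)) ≤ Y (.inl (t', l)) := Y_le (not_lt.1 hc)
        nlinarith [mul_pos (sub_pos.2 h1) h3]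
      have a := betw (hub_col (j := j) hn hv.1) h0 h1
      rw [hx] at a
      have hl := lam_Nb_le hv.1
      rw [hn] at hl
      have hw' : wd t2 = 8 ^ (t2 - lam n) := by unfold wd; rw [hn]
      have g := gap (n := n) (j := j) (t := t2) (t' := t') (i := l) (by omega) (by omega) a.1
      rw [← hw'] at g
      linarith [a.2]
    · have h4 : Y (.inr (m, l)) = 0 := rfl
      rw [h4] at hy
      have := mul_pos h0 h3
      linarith
  · obtain ⟨rfl, hE⟩ := h
    have c := child_lt hE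
    have e1 : chi (.inr (n, j)) (.inr (n + 1, j2)) = 1 := rfl
    have e3 : Y (.inr (n, j)) = 0 := rfl
    have e4 : Y (.inr (n + 1, j2)) = 0 := rfl
    rw [e1, e3, e4] at hy
    have hp : 0 < s * (1 - s) * (X (.inr (n + 1, j2)) - X (.inr (n, j))) ^ 2 := by
      have := sub_pos.2 c
      have := sub_pos.2 h1
      positivity
    have hwn : 0 ≤ Y w := by
      rcases w with ⟨t', l⟩ | ⟨m, l⟩
      · exact (Y_pos _ _).le
      · exact le_refl _
    linarith

/-- the vertex set -/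
abbrev V : Type := {v : RV // Valid v}

/-- the graph -/
def G : SimpleGraph V := G0.comap Subtype.val

lemma G_adj {u v : V} : G.Adj u v ↔ E u.1 v.1 ∨ E v.1 u.1 := by
  constructor
  · intro h; exact h.2.2
  · intro h; exact ⟨u.2, v.2, h⟩

theorem planar : ∃ f : V → ℂ, Function.Injective f ∧ ∃ γ : V → V → ℝ → ℂ, ∀ u v, G.Adj u v →
     ContinuousOn (γ u v) (Set.Icc 0 1) ∧ Set.InjOn (γ u v) (Set.Icc 0 1) ∧
     γ u v 0 = f u ∧ γ u v 1 = f v ∧
     (∀ t ∈ Set.Ioo (0:ℝ) 1, ∀ w, γ u v t ≠ f w) ∧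
     ∀ u' v', G.Adj u' v' → ∀ t ∈ Set.Ioo (0:ℝ) 1, ∀ t' ∈ Set.Ioo (0:ℝ) 1,
       γ u v t = γ u' v' t' → (u = u' ∧ v = v') ∨ (u = v' ∧ v = u') := by
  refine ⟨fun v => pl v.1, fun u v h => Subtype.ext (pl_inj h), fun u v => cu u.1 v.1, ?_⟩
  intro u v huv
  refine ⟨(cu_cont _ _).continuousOn, (cu_inj ?_).injOn, cu_zero _ _, cu_one _ _, ?_, ?_⟩
  · intro h; exact huv.ne (Subtype.ext h)
  · intro t ht w
    rcases G_adj.1 huv with h | h
    · exact avoid u.2 v.2 h ht w.1 w.2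
    · show cu u.1 v.1 t ≠ pl w.1
      rw [cu_symm]
      exact avoid v.2 u.2 h ⟨by linarith [ht.2], by linarith [ht.1]⟩ w.1 w.2
  · intro u' v' huv' t ht t' ht' heq
    have ht2 : 1 - t ∈ Set.Ioo (0 : ℝ) 1 := ⟨by linarith [ht.2], by linarith [ht.1]⟩
    have ht2' : 1 - t' ∈ Set.Ioo (0 : ℝ) 1 := ⟨by linarith [ht'.2], by linarith [ht'.1]⟩
    simp only at heq
    rcases G_adj.1 huv with h | h <;> rcases G_adj.1 huv' with h' | h'
    · obtain ⟨a, b⟩ := noncross u.2 v.2 u'.2 v'.2 h h' ht ht' heq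
      exact Or.inl ⟨Subtype.ext a, Subtype.ext b⟩
    · rw [cu_symm v'.1 u'.1] at heq
      obtain ⟨a, b⟩ := noncross u.2 v.2 v'.2 u'.2 h h' ht ht2' heq
      exact Or.inr ⟨Subtype.ext a, Subtype.ext b⟩
    · rw [cu_symm v.1 u.1] at heq
      obtain ⟨a, b⟩ := noncross v.2 u.2 u'.2 v'.2 h h' ht2 ht' heq
      exact Or.inr ⟨Subtype.ext b, Subtype.ext a⟩
    · rw [cu_symm v.1 u.1, cu_symm v'.1 u'.1] at heq
      obtain ⟨a, b⟩ := noncross v.2 u.2 v'.2 u'.2 h h' ht2 ht2' heq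
      exact Or.inl ⟨Subtype.ext b, Subtype.ext a⟩

end Pool.Agent.H728R3
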