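import Mathlib
import Pool.Agent.H728R3.Planar4

set_option autoImplicit false

namespace Pool.Agent.H728R3

/-! ### local finiteness -/

/-- a bound for the coordinates of the neighbours -/
def bnd : RV → ℕ
  | .inl (t, i) => t + 8 * i + 8 + Nb t
  | .inr (n, j) => 64 * 2 ^ n + 8 ^ (64 * 2 ^ n) + n + 1 + 8 ^ lam (n + 1) + j

def co1 : RV → ℕ
  | .inl p => p.1
  | .inr p => p.1

def co2 : RV → ℕ
  | .inl p => p.2
  | .inr p => p.2

lemma fin_box (B : ℕ) : {w : RV | co1 w ≤ B ∧ co2 w ≤ B}.Finite := by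
  have h1 : ((Finset.range (B + 1) ×ˢ Finset.range (B + 1) : Finset (ℕ × ℕ)) : Set (ℕ × ℕ)).Finite :=
    Finset.finite_toSet _
  refine ((h1.image (Sum.inl : ℕ × ℕ → RV)).union (h1.image (Sum.inr : ℕ × ℕ → RV))).subset ?_
  rintro (⟨a, b⟩ | ⟨a, b⟩) ⟨ha, hb⟩
  · left
    refine ⟨(a, b), ?_, rfl⟩
    simp only [co1, co2] at ha hb
    simp only [Finset.coe_product, Finset.coe_range, Set.mem_prod, Set.mem_Iio]
    omega
  · right
    refine ⟨(a, b), ?_, rfl⟩
    simp only [co1, co2] at ha hb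
    simp only [Finset.coe_product, Finset.coe_range, Set.mem_prod, Set.mem_Iio]
    omega

lemma adj_bnd {u w : RV} (hu : Valid u) (hw : Valid w) (h : E u w ∨ E w u) :
    co1 w ≤ bnd u ∧ co2 w ≤ bnd u := by
  rcases u with ⟨t, i⟩ | ⟨n, j⟩ <;> rcases w with ⟨t2, i2⟩ | ⟨n2, j2⟩
  · simp only [co1, co2, bnd]
    rcases h with h | h
    · rcases h with ⟨h1, h2, -⟩ | ⟨h1, h2 | ⟨h2, -⟩⟩ <;> constructor <;> omega
    · rcases h with ⟨h1, h2, -⟩ | ⟨h1, h2 | ⟨h2, -⟩⟩ <;> constructor <;> omega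
  · simp only [co1, co2, bnd]
    rcases h with h | h
    · exact h.elim
    · obtain ⟨h1, h2⟩ := h
      have := wd_pos t
      constructor
      · omega
      · have : j2 ≤ j2 * wd t := Nat.le_mul_of_pos_right _ this
        omega
  · simp only [co1, co2, bnd]
    rcases h with h | h
    · obtain ⟨h1, h2⟩ := h
      obtain ⟨hv1, hv2⟩ := hw
      have h3 := lt_Nb hv1
      rw [h1] at h3
      have h4 : 8 ^ t2 ≤ 8 ^ (64 * 2 ^ n) := Nat.pow_le_pow_right (by norm_num) h3.le
      have q1 := p8 (64 * 2 ^ n)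
      have q2 := p8 (lam (n + 1))
      constructor <;> omega
    · exact h.elim
  · simp only [co1, co2, bnd]
    rcases h with h | h
    · obtain ⟨h1, h2⟩ := h
      have hw' : j2 < 8 ^ lam n2 := hw
      rw [h1] at hw'
      have q1 := p8 (64 * 2 ^ n)
      have q2 := p8 (lam (n + 1))
      constructor <;> omega
    · obtain ⟨h1, h2⟩ := h
      have hw' : j2 < 8 ^ lam n2 := hw
      have h3 : 8 ^ lam n2 ≤ 8 ^ lam (n + 1) :=
        Nat.pow_le_pow_right (by norm_num) (lam_mono (by omega))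
      have q1 := p8 (64 * 2 ^ n)
      have q2 := p8 (lam (n + 1))
      constructor <;> omega

lemma nbr_fin (v : V) : (G.neighborSet v).Finite := by
  have h := fin_box (bnd v.1)
  have h2 : ((Subtype.val : V → RV) ⁻¹' {w : RV | co1 w ≤ bnd v.1 ∧ co2 w ≤ bnd v.1}).Finite :=
    h.preimage Subtype.val_injective.injOn
  refine h2.subset ?_
  intro w hw
  exact adj_bnd v.2 w.2 (G_adj.1 hw)

noncomputable instance : G.LocallyFinite := fun v => (nbr_fin v).fintype

/-! ### degrees -/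

lemma seven_of_inj {v : V} (f : Fin 7 → V) (hf : Function.Injective f)
    (h : ∀ a, G.Adj v (f a)) : 7 ≤ G.degree v := by
  classical
  have h1 : (Finset.univ.map ⟨f, hf⟩ : Finset V) ⊆ G.neighborFinset v := by
    intro w hw
    simp only [Finset.mem_map, Finset.mem_univ, true_and, Function.Embedding.coeFn_mk] at hw
    obtain ⟨a, rfl⟩ := hw
    rw [SimpleGraph.mem_neighborFinset]
    exact h a
  have h2 := Finset.card_le_card h1
  rw [Finset.card_map, Finset.card_univ, Fintype.card_fin, SimpleGraph.card_neighborFinset_eq_degree]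
    at h2
  exact h2

lemma child_valid {t i a : ℕ} (h : Valid (.inl (t, i))) (ha : a < 8) :
    Valid (.inl (t + 1, 8 * i + a)) := by
  obtain ⟨h1, h2⟩ := h
  refine ⟨by omega, ?_⟩
  rw [pow_succ]; omega

lemma lam_diff (n : ℕ) : lam (n + 1) - lam n = lam n + 8 := by
  rw [lam_succ]; omega

lemma hchild_valid {n j a : ℕ} (h : Valid (.inr (n, j))) (ha : a < 8 ^ (lam (n + 1) - lam n)) :
    Valid (.inr (n + 1, j * 8 ^ (lam (n + 1) - lam n) + a)) := by
  have h' : j < 8 ^ lam n := h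
  show j * 8 ^ (lam (n + 1) - lam n) + a < 8 ^ lam (n + 1)
  have e : 8 ^ lam (n + 1) = 8 ^ lam n * 8 ^ (lam (n + 1) - lam n) := by
    rw [← pow_add]; congr 1; have := lam_succ n; omega
  rw [e]
  calc j * 8 ^ (lam (n + 1) - lam n) + a < (j + 1) * 8 ^ (lam (n + 1) - lam n) := by
        rw [add_mul]; omega
    _ ≤ _ := Nat.mul_le_mul_right _ h'

theorem degree_ge (v : V) : 7 ≤ G.degree v := by
  obtain ⟨v, hv⟩ := v
  rcases v with ⟨t, i⟩ | ⟨n, j⟩
  · refine seven_of_inj (fun a : Fin 7 => ⟨.inl (t + 1, 8 * i + a),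
      child_valid hv (by omega)⟩) ?_ ?_
    · intro a b hab
      simp only [Subtype.mk.injEq, Sum.inl.injEq, Prod.mk.injEq, true_and] at hab
      exact Fin.ext (by omega)
    · intro a
      rw [G_adj]
      left; right
      refine ⟨rfl, Or.inl ?_⟩
      have := a.2
      omega
  · have h8 : 8 ≤ 8 ^ (lam (n + 1) - lam n) := by
      rw [lam_diff, pow_add]
      have := p8 (lam n)
      nlinarith
    refine seven_of_inj (fun a : Fin 7 => ⟨.inr (n + 1, j * 8 ^ (lam (n + 1) - lam n) + a),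
      hchild_valid hv (by have := a.2; omega)⟩) ?_ ?_
    · intro a b hab
      simp only [Subtype.mk.injEq, Sum.inr.injEq, Prod.mk.injEq, true_and] at hab
      exact Fin.ext (by omega)
    · intro a
      rw [G_adj]
      left
      refine ⟨rfl, ?_⟩
      have ha : (a : ℕ) < 8 ^ (lam (n + 1) - lam n) := by have := a.2; omega
      rw [mul_comm, Nat.mul_add_div (p8 _), Nat.div_eq_of_lt ha, add_zero]

/-! ### connectedness -/

lemma Nb_32 : Nb 32 = 0 := by
  rw [Nb_eq_iff (le_refl _)]; norm_num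

lemma wd_32 : wd 32 = 8 ^ 32 := by
  unfold wd; rw [Nb_32, lam_zero]

def root : V := ⟨.inl (32, 0), ⟨le_refl _, by positivity⟩⟩

lemma reach_cell (t i : ℕ) (h : Valid (.inl (t, i))) : G.Reachable root ⟨.inl (t, i), h⟩ := by
  obtain ⟨d, rfl⟩ : ∃ d, t = 32 + d := ⟨t - 32, by have := h.1; omega⟩
  induction d generalizing i with
  | zero =>
    induction i with
    | zero => exact SimpleGraph.Reachable.refl _
    | succ i ih =>
      have hv : Valid (.inl (32 + 0, i)) := ⟨h.1, by have := h.2; omega⟩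
      refine (ih hv).trans (SimpleGraph.Adj.reachable ?_)
      rw [G_adj]
      left; left
      refine ⟨rfl, rfl, ?_⟩
      have h2 : i + 1 < 8 ^ 32 := h.2
      show i / wd 32 = (i + 1) / wd 32
      rw [wd_32, Nat.div_eq_of_lt h2, Nat.div_eq_of_lt (by omega)]
  | succ d ih =>
    have hv : Valid (.inl (32 + d, i / 8)) := by
      refine ⟨by omega, ?_⟩
      have h2 : i < 8 ^ (32 + d + 1) := h.2
      rw [pow_succ] at h2
      exact Nat.div_lt_of_lt_mul (by linarith)
    refine (ih (i / 8) hv).trans (SimpleGraph.Adj.reachable ?_)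
    rw [G_adj]
    left; right
    exact ⟨rfl, Or.inl rfl⟩

lemma Nb_pow (n : ℕ) : Nb (32 * 2 ^ n) = n := by
  have : 1 ≤ 2 ^ n := Nat.one_le_two_pow
  rw [Nb_eq_iff (by omega)]
  omega

lemma col_valid {n j t : ℕ} (h : Valid (.inr (n, j))) (ht : 32 ≤ t) (hn : Nb t = n) :
    Valid (.inl (t, j * wd t)) := by
  refine ⟨ht, ?_⟩
  have h' : j < 8 ^ lam n := h
  have hl := lam_Nb_le ht
  have e : 8 ^ t = 8 ^ lam n * wd t := by
    unfold wd; rw [← pow_add, hn]; congr 1; rw [hn] at hl; omega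
  rw [e]
  exact Nat.mul_lt_mul_of_pos_right h' (wd_pos t)

theorem connected : G.Connected := by
  have key1 : ∀ v : V, G.Reachable root v := by
    rintro ⟨v, hv⟩
    rcases v with ⟨t, i⟩ | ⟨n, j⟩
    · exact reach_cell t i hv
    · have h1 : 1 ≤ 2 ^ n := Nat.one_le_two_pow
      have hc := col_valid (t := 32 * 2 ^ n) hv (by omega) (Nb_pow n)
      refine (reach_cell _ _ hc).trans (SimpleGraph.Adj.reachable ?_)
      rw [G_adj]
      right
      exact ⟨Nb_pow n, rfl⟩
  have : Nonempty V := ⟨root⟩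
  exact ⟨fun u v => (key1 u).symm.trans (key1 v)⟩

end Pool.Agent.H728R3
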