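import Mathlib

/-!
A separation lemma.  Let `W` be a set of vertices of a graph such that every cocycle (with respect
to the triangles) on `W` is a coboundary.  If `x`, `y` are not connected in `O ⊆ W`, there is a
connected set in the complement of `O` in `W` which separates them in `W`.
-/

set_option autoImplicit false

namespace Pool.Agent.H728R3

variable {α : Type*} (G : SimpleGraph α)

/-- adjacency inside a set -/
def Rel (S : Set α) (a b : α) : Prop := G.Adj a b ∧ a ∈ S ∧ b ∈ S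

/-- connection inside a set -/
def Conn (S : Set α) : α → α → Prop := Relation.ReflTransGen (Rel G S)

variable {G}

lemma Rel.symm {S : Set α} {a b : α} (h : Rel G S a b) : Rel G S b a := ⟨h.1.symm, h.2.2, h.2.1⟩

lemma Conn.symm {S : Set α} {a b : α} (h : Conn G S a b) : Conn G S b a := by
  induction h with
  | refl => exact Relation.ReflTransGen.refl
  | tail _ h2 ih => exact Relation.ReflTransGen.head h2.symm ih

lemma Conn.trans {S : Set α} {a b c : α} (h : Conn G S a b) (h' : Conn G S b c) : Conn G S a c :=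
  Relation.ReflTransGen.trans h h'

lemma Conn.refl {S : Set α} (a : α) : Conn G S a a := Relation.ReflTransGen.refl

lemma Conn.step {S : Set α} {a b : α} (h : G.Adj a b) (ha : a ∈ S) (hb : b ∈ S) : Conn G S a b :=
  Relation.ReflTransGen.single ⟨h, ha, hb⟩

lemma Conn.mono {S T : Set α} (hST : S ⊆ T) {a b : α} (h : Conn G S a b) : Conn G T a b := by
  induction h with
  | refl => exact Conn.refl _
  | tail _ h2 ih => exact ih.tail ⟨h2.1, hST h2.2.1, hST h2.2.2⟩

lemma Conn.inv {S : Set α} {P : α → Prop} (hP : ∀ u v, P u → Rel G S u v → P v) {a b : α}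
    (h : Conn G S a b) (ha : P a) : P b := by
  induction h with
  | refl => exact ha
  | tail _ h2 ih => exact hP _ _ ih h2

lemma Conn.mem {S : Set α} {a b : α} (h : Conn G S a b) (ha : a ∈ S) : b ∈ S :=
  Conn.inv (P := fun v => v ∈ S) (fun _ _ _ h => h.2.2) h ha

variable (G)

/-- every cocycle on `W` is a coboundary -/
def H1 (W : Set α) : Prop :=
  ∀ f : α → α → ℤ, (∀ a b, f a b = - f b a) →
    (∀ a b c, a ∈ W → b ∈ W → c ∈ W → G.Adj a b → G.Adj b c → G.Adj a c →
      f a b + f b c = f a c) →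
    ∃ g : α → ℤ, ∀ a b, a ∈ W → b ∈ W → G.Adj a b → g b - g a = f a b

variable {G}

theorem sep {W O : Set α} (hOW : O ⊆ W) (hH : H1 G W) {x y : α} (hx : x ∈ O) (hy : y ∈ O)
    (hxy : ¬ Conn G O x y) :
    ∃ Q : Set α, Q ⊆ W \ O ∧ (∀ a ∈ Q, ∀ b ∈ Q, Conn G Q a b) ∧ ¬ Conn G (W \ Q) x y := by
  classical
  set Xs : Set α := {v | Conn G O x v} with hXs
  set N : Set α := {v | v ∈ W ∧ v ∉ Xs ∧ ∃ u ∈ Xs, G.Adj u v} with hN
  set Ys : Set α := {v | Conn G (W \ N) y v} with hYs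
  set Q : Set α := {v | v ∈ N ∧ ∃ u ∈ Ys, G.Adj u v} with hQ
  have XsO : ∀ v ∈ Xs, v ∈ O := fun v hv => Conn.mem hv hx
  have NO : ∀ v ∈ N, v ∉ O := by
    rintro v ⟨hv1, hv2, u, hu, huv⟩ hvO
    exact hv2 (Relation.ReflTransGen.tail hu ⟨huv, XsO u hu, hvO⟩)
  have hyN : y ∈ W \ N := ⟨hOW hy, fun h => NO y h hy⟩
  have YsW : ∀ v ∈ Ys, v ∈ W \ N := fun v hv => Conn.mem hv hyN
  have XsN : ∀ v ∈ Xs, v ∉ N := fun v hv h => h.2.1 hv
  -- the two sides are disjoint
  have hdisj : ∀ v ∈ Xs, v ∉ Ys := by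
    intro v hv hvY
    have h1 : Conn G (W \ N) v y := Conn.symm hvY
    have h2 : y ∈ Xs := by
      refine Conn.inv (P := fun v => v ∈ Xs) ?_ h1 hv
      intro u w hu huw
      by_contra hw
      exact huw.2.2.2 ⟨huw.2.2.1, hw, u, hu, huw.1⟩
    exact hxy h2
  have hx0 : x ∈ Xs := Conn.refl x
  refine ⟨Q, ?_, ?_, ?_⟩
  · intro v hv
    exact ⟨hv.1.1, NO v hv.1⟩
  · intro a ha b hb
    by_contra hab
    set Q1 : Set α := {v | Conn G Q a v} with hQ1
    have Q1Q : ∀ v ∈ Q1, v ∈ Q := fun v hv => Conn.mem hv ha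
    have Q1Y : ∀ v ∈ Q1, v ∉ Ys := fun v hv h => (YsW v h).2 (Q1Q v hv).1
    -- third vertices
    have third : ∀ u v w, u ∈ Ys → v ∈ Q1 → w ∈ W → G.Adj u w → G.Adj v w → w ∈ Ys ∨ w ∈ Q1 := by
      intro u v w hu hv hw huw hvw
      by_cases hwN : w ∈ N
      · right
        have hwQ : w ∈ Q := ⟨hwN, u, hu, huw⟩
        exact Relation.ReflTransGen.tail hv ⟨hvw, Q1Q v hv, hwQ⟩
      · left
        exact Relation.ReflTransGen.tail hu ⟨huw, YsW u hu, hw, hwN⟩
    set f : α → α → ℤ := fun u v => (if u ∈ Ys ∧ v ∈ Q1 then 1 else 0) -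
      (if v ∈ Ys ∧ u ∈ Q1 then 1 else 0) with hf
    have fanti : ∀ u v, f u v = - f v u := by
      intro u v; simp only [hf]; ring
    -- value of `f` on the union of the two sets
    set ph : α → ℤ := fun v => if v ∈ Q1 then 1 else 0 with hph
    have fval : ∀ u v, (u ∈ Ys ∨ u ∈ Q1) → (v ∈ Ys ∨ v ∈ Q1) → f u v = ph v - ph u := by
      intro u v hu hv
      simp only [hf, hph]
      rcases hu with hu | hu <;> rcases hv with hv | hv
      · have h1 : u ∉ Q1 := fun h => Q1Y u h hu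
        have h2 : v ∉ Q1 := fun h => Q1Y v h hv
        simp [h1, h2]
      · have h1 : u ∉ Q1 := fun h => Q1Y u h hu
        have h2 : v ∉ Ys := fun h => Q1Y v hv h
        simp [h1, h2, hu, hv]
      · have h1 : u ∉ Ys := fun h => Q1Y u hu h
        have h2 : v ∉ Q1 := fun h => Q1Y v h hv
        simp [h1, h2, hu, hv]
      · have h1 : u ∉ Ys := fun h => Q1Y u hu h
        have h2 : v ∉ Ys := fun h => Q1Y v hv h
        simp [h1, h2, hu, hv]
    have fzero : ∀ u v, ¬ (u ∈ Ys ∧ v ∈ Q1) → ¬ (v ∈ Ys ∧ u ∈ Q1) → f u v = 0 := by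
      intro u v h1 h2
      simp only [hf, if_neg h1, if_neg h2, sub_zero]
    have fco : ∀ u v w, u ∈ W → v ∈ W → w ∈ W → G.Adj u v → G.Adj v w → G.Adj u w →
        f u v + f v w = f u w := by
      intro u v w hu hv hw huv hvw huw
      by_cases hall : (u ∈ Ys ∨ u ∈ Q1) ∧ (v ∈ Ys ∨ v ∈ Q1) ∧ (w ∈ Ys ∨ w ∈ Q1)
      · rw [fval u v hall.1 hall.2.1, fval v w hall.2.1 hall.2.2, fval u w hall.1 hall.2.2]
        ring
      · have n1 : ¬ (u ∈ Ys ∧ v ∈ Q1) := fun h =>
          hall ⟨Or.inl h.1, Or.inr h.2, third u v w h.1 h.2 hw huw hvw⟩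
        have n2 : ¬ (v ∈ Ys ∧ u ∈ Q1) := fun h =>
          hall ⟨Or.inr h.2, Or.inl h.1, third v u w h.1 h.2 hw hvw huw⟩
        have n3 : ¬ (v ∈ Ys ∧ w ∈ Q1) := fun h =>
          hall ⟨third v w u h.1 h.2 hu huv.symm huw.symm, Or.inl h.1, Or.inr h.2⟩
        have n4 : ¬ (w ∈ Ys ∧ v ∈ Q1) := fun h =>
          hall ⟨third w v u h.1 h.2 hu huw.symm huv.symm, Or.inr h.2, Or.inl h.1⟩
        have n5 : ¬ (u ∈ Ys ∧ w ∈ Q1) := fun h =>
          hall ⟨Or.inl h.1, third u w v h.1 h.2 hv huv hvw.symm, Or.inr h.2⟩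
        have n6 : ¬ (w ∈ Ys ∧ u ∈ Q1) := fun h =>
          hall ⟨Or.inr h.2, third w u v h.1 h.2 hv hvw.symm huv, Or.inl h.1⟩
        rw [fzero u v n1 n2, fzero v w n3 n4, fzero u w n5 n6]; ring
    obtain ⟨g, hg⟩ := hH f fanti fco
    have gY : ∀ v ∈ Ys, g v = g y := by
      intro v hv
      have h2 : v ∈ Ys ∧ g v = g y := by
        refine Conn.inv (P := fun v => v ∈ Ys ∧ g v = g y) ?_ hv ⟨Conn.refl y, rfl⟩
        rintro u w ⟨huY, hu⟩ huw
        have hwY : w ∈ Ys := Relation.ReflTransGen.tail huY huw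
        refine ⟨hwY, ?_⟩
        have h3 := hg u w huw.2.1.1 huw.2.2.1 huw.1
        rw [fzero u w (fun h => Q1Y w h.2 hwY) (fun h => Q1Y u h.2 huY)] at h3
        omega
      exact h2.2
    have gX : ∀ v ∈ Xs, g v = g x := by
      intro v hv
      have h2 : v ∈ Xs ∧ g v = g x := by
        refine Conn.inv (P := fun v => v ∈ Xs ∧ g v = g x) ?_ hv ⟨hx0, rfl⟩
        rintro u w ⟨huX, hu⟩ huw
        have hwX : w ∈ Xs := Relation.ReflTransGen.tail huX huw
        refine ⟨hwX, ?_⟩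
        have h3 := hg u w (hOW huw.2.1) (hOW huw.2.2) huw.1
        rw [fzero u w (fun h => hdisj u huX h.1) (fun h => hdisj w hwX h.1)] at h3
        omega
      exact h2.2
    have gN : ∀ v ∈ Q, g v = g x := by
      intro v hv
      obtain ⟨u, hu, huv⟩ := hv.1.2.2
      have h3 := hg u v (hOW (XsO u hu)) hv.1.1 huv
      rw [fzero u v (fun h => hdisj u hu h.1) (fun h => (YsW v h.1).2 hv.1)] at h3
      have := gX u hu
      omega
    -- the value at `a`
    have ga : g a = g y + 1 := by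
      obtain ⟨u, hu, hua⟩ := ha.2
      have h3 := hg u a (YsW u hu).1 ha.1.1 hua
      have haQ1 : a ∈ Q1 := Conn.refl a
      have h4 : f u a = 1 := by
        have h5 : u ∉ Q1 := fun h => Q1Y u h hu
        simp only [hf]
        rw [if_pos ⟨hu, haQ1⟩, if_neg (fun h => h5 h.2)]; ring
      have := gY u hu
      omega
    have gb : g b = g y := by
      obtain ⟨u, hu, hub⟩ := hb.2
      have h3 := hg u b (YsW u hu).1 hb.1.1 hub
      rw [fzero u b (fun h => hab h.2) (fun h => Q1Y u h.2 hu)] at h3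
      have := gY u hu
      omega
    have := gN a ha
    have := gN b hb
    omega
  · intro hc
    have h1 : Conn G (W \ Q) y x := hc.symm
    have h2 : x ∈ Ys := by
      refine Conn.inv (P := fun v => v ∈ Ys) ?_ h1 (Conn.refl y)
      intro u w hu huw
      have hwN : w ∉ N := fun hw => huw.2.2.2 ⟨hw, u, hu, huw.1⟩
      exact Relation.ReflTransGen.tail hu ⟨huw.1, YsW u hu, huw.2.2.1, hwN⟩
    exact hdisj x hx0 h2

end Pool.Agent.H728R3
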