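import Mathlib
import Pool.Agent.H728R3.Basic
import Pool.Agent.H728R3.Sep

set_option autoImplicit false

namespace Pool.Agent.H728R3

/-- the cells of the levels `a ≤ t < b` in the `j`-th interval of length `8 ^ (-l)` -/
def Rc (a b l j : ℕ) : Set RV := {v | match v with
  | .inl (t, i) => a ≤ t ∧ t < b ∧ i / 8 ^ (t - l) = j
  | .inr _ => False}

lemma mem_Rc {a b l j t i : ℕ} : (Sum.inl (t, i) : RV) ∈ Rc a b l j ↔
    a ≤ t ∧ t < b ∧ i / 8 ^ (t - l) = j := Iff.rfl

lemma hub_not_mem_Rc {a b l j : ℕ} {p : ℕ × ℕ} : (Sum.inr p : RV) ∉ Rc a b l j := fun h => h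

/-- admissible parameters -/
structure Ok (a b l j : ℕ) : Prop where
  h32 : 32 ≤ a
  hla : l ≤ a
  hj : j < 8 ^ l
  hlam : ∀ t, a ≤ t → t < b → lam (Nb t) ≤ l

lemma div8 {t l i : ℕ} (h : l ≤ t) : i / 8 ^ (t + 1 - l) = i / 8 / 8 ^ (t - l) := by
  rw [Nat.div_div_eq_div_mul]
  congr 1
  rw [← pow_succ']; congr 1; omega

lemma Ok.valid {a b l j t i : ℕ} (h : Ok a b l j) (hm : (Sum.inl (t, i) : RV) ∈ Rc a b l j) :
    Valid (.inl (t, i)) := by
  obtain ⟨h1, h2, h3⟩ := mem_Rc.1 hm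
  have h32 := h.h32
  have hla := h.hla
  refine ⟨by omega, ?_⟩
  have h4 : i < 8 ^ l * 8 ^ (t - l) := by
    apply Nat.lt_mul_of_div_lt _ (p8 _)
    rw [h3]; exact h.hj
  rw [← pow_add] at h4
  rwa [show l + (t - l) = t by omega] at h4

/-- cells of the same row of a rectangle are in the same strip -/
lemma Ok.same {a b l j t i i' : ℕ} (h : Ok a b l j) (hm : (Sum.inl (t, i) : RV) ∈ Rc a b l j)
    (hm' : (Sum.inl (t, i') : RV) ∈ Rc a b l j) : i / wd t = i' / wd t := by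
  obtain ⟨h1, h2, h3⟩ := mem_Rc.1 hm
  obtain ⟨-, -, h3'⟩ := mem_Rc.1 hm'
  have hl := h.hlam t h1 h2
  have hla := h.hla
  have e : wd t = 8 ^ (t - l) * 8 ^ (l - lam (Nb t)) := by
    unfold wd; rw [← pow_add]; congr 1; omega
  rw [e, ← Nat.div_div_eq_div_mul, ← Nat.div_div_eq_div_mul, h3, h3']

lemma Ok.adjH {a b l j t i : ℕ} (h : Ok a b l j) (hm : (Sum.inl (t, i) : RV) ∈ Rc a b l j)
    (hm' : (Sum.inl (t, i + 1) : RV) ∈ Rc a b l j) : G0.Adj (.inl (t, i)) (.inl (t, i + 1)) :=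
  ⟨h.valid hm, h.valid hm', Or.inl (Or.inl ⟨rfl, rfl, h.same hm hm'⟩)⟩

lemma Ok.adjD {a b l j t i i' : ℕ} (h : Ok a b l j) (hm : (Sum.inl (t, i) : RV) ∈ Rc a b l j)
    (hm' : (Sum.inl (t + 1, i') : RV) ∈ Rc a b l j) (hi : i' / 8 = i) :
    G0.Adj (.inl (t, i)) (.inl (t + 1, i')) :=
  ⟨h.valid hm, h.valid hm', Or.inl (Or.inr ⟨rfl, Or.inl hi⟩)⟩

lemma Ok.row_child {a b l j t i r : ℕ} (h : Ok a b l j) (hm : (Sum.inl (t, i) : RV) ∈ Rc a b l j)
    (hr : r < 8) (htb : t + 1 < b) : (Sum.inl (t + 1, 8 * i + r) : RV) ∈ Rc a b l j := by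
  obtain ⟨h1, h2, h3⟩ := mem_Rc.1 hm
  have hla := h.hla
  refine mem_Rc.2 ⟨by omega, htb, ?_⟩
  rw [div8 (by omega)]
  have : (8 * i + r) / 8 = i := by omega
  rw [this, h3]

lemma Ok.row_parent {a b l j t i : ℕ} (h : Ok a b l j)
    (hm : (Sum.inl (t + 1, i) : RV) ∈ Rc a b l j) (hta : a ≤ t) :
    (Sum.inl (t, i / 8) : RV) ∈ Rc a b l j := by
  obtain ⟨h1, h2, h3⟩ := mem_Rc.1 hm
  have hla := h.hla
  refine mem_Rc.2 ⟨hta, by omega, ?_⟩
  rw [div8 (by omega)] at h3
  exact h3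

lemma Ok.adjX {a b l j t i : ℕ} (h : Ok a b l j) (hm : (Sum.inl (t, i) : RV) ∈ Rc a b l j)
    (hm' : (Sum.inl (t + 1, 8 * i + 8) : RV) ∈ Rc a b l j) :
    G0.Adj (.inl (t, i)) (.inl (t + 1, 8 * i + 8)) := by
  refine ⟨h.valid hm, h.valid hm', Or.inl (Or.inr ⟨rfl, Or.inr ⟨rfl, ?_⟩⟩)⟩
  exact h.same (h.row_child hm (by norm_num) (mem_Rc.1 hm').2.1) hm'

/-- potential of a cocycle -/
def gg (a : ℕ) (f : RV → RV → ℤ) : ℕ → ℕ → ℤ
  | 0, i => ∑ k ∈ Finset.range i, f (.inl (a, k)) (.inl (a, k + 1))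
  | d + 1, i => gg a f d (i / 8) + f (.inl (a + d, i / 8)) (.inl (a + d + 1, i))

lemma gg_row {a b l j : ℕ} (h : Ok a b l j) (f : RV → RV → ℤ)
    (hf : ∀ u v w, u ∈ Rc a b l j → v ∈ Rc a b l j → w ∈ Rc a b l j → G0.Adj u v →
      G0.Adj v w → G0.Adj u w → f u v + f v w = f u w) (d i : ℕ)
    (hm : (Sum.inl (a + d, i) : RV) ∈ Rc a b l j)
    (hm' : (Sum.inl (a + d, i + 1) : RV) ∈ Rc a b l j) :
    gg a f d (i + 1) - gg a f d i = f (.inl (a + d, i)) (.inl (a + d, i + 1)) := by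
  induction d generalizing i with
  | zero =>
    simp only [gg, Finset.sum_range_succ, add_zero]
    ring
  | succ d ih =>
    have e : a + (d + 1) = a + d + 1 := by ring
    rw [e] at hm hm' ⊢
    have hp := h.row_parent hm (by omega)
    have hp' := h.row_parent hm' (by omega)
    simp only [gg]
    by_cases hc : (i + 1) / 8 = i / 8
    · rw [hc]
      have := hf _ _ _ hp hm hm' (h.adjD hp hm rfl) (h.adjH hm hm') (h.adjD hp hm' hc)
      linarith
    · have h1 : (i + 1) / 8 = i / 8 + 1 := by omega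
      have h2 : i + 1 = 8 * (i / 8) + 8 := by omega
      rw [h1] at hp' ⊢
      have h3 := ih (i / 8) hp hp'
      have hX : G0.Adj (.inl (a + d, i / 8)) (.inl (a + d + 1, i + 1)) := by
        rw [h2] at hm' ⊢
        exact h.adjX hp hm'
      have h4 := hf _ _ _ hp hp' hm' (h.adjH hp hp') (h.adjD hp' hm' h1) hX
      have h5 := hf _ _ _ hp hm hm' (h.adjD hp hm rfl) (h.adjH hm hm') hX
      linarith

/-- the potential on vertices -/
def gv (a : ℕ) (f : RV → RV → ℤ) : RV → ℤ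
  | .inl (t, i) => gg a f (t - a) i
  | .inr _ => 0

lemma gv_E {a b l j : ℕ} (h : Ok a b l j) (f : RV → RV → ℤ)
    (hf : ∀ u v w, u ∈ Rc a b l j → v ∈ Rc a b l j → w ∈ Rc a b l j → G0.Adj u v →
      G0.Adj v w → G0.Adj u w → f u v + f v w = f u w) {u v : RV}
    (hu : u ∈ Rc a b l j) (hv : v ∈ Rc a b l j) (hE : E u v) :
    gv a f v - gv a f u = f u v := by
  rcases u with ⟨t, i⟩ | p
  swap
  · exact hu.elim
  rcases v with ⟨t', i'⟩ | p
  swap
  · exact hv.elim
  obtain ⟨h1, h2, h3⟩ := mem_Rc.1 hu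
  obtain ⟨d, rfl⟩ : ∃ d, t = a + d := ⟨t - a, by omega⟩
  rcases hE with ⟨ht, rfl, -⟩ | ⟨rfl, hc | ⟨rfl, -⟩⟩
  · have ht := ht.symm
    subst ht
    simp only [gv, Nat.add_sub_cancel_left]
    exact gg_row h f hf d i hu hv
  · simp only [gv, Nat.add_sub_cancel_left]
    have e : a + d + 1 - a = d + 1 := by omega
    rw [e]
    simp only [gg, hc]
    ring
  · simp only [gv, Nat.add_sub_cancel_left]
    have e : a + d + 1 - a = d + 1 := by omega
    rw [e]
    simp only [gg]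
    have e8 : (8 * i + 8) / 8 = i + 1 := by omega
    have hp := h.row_parent hv (by omega)
    rw [e8] at hp ⊢
    have h5 := gg_row h f hf d i hu hp
    have h6 := hf _ _ _ hu hp hv (h.adjH hu hp) (h.adjD hp hv e8) (h.adjX hu hv)
    linarith

theorem H1_Rc {a b l j : ℕ} (h : Ok a b l j) : H1 G0 (Rc a b l j) := by
  intro f fanti hf
  refine ⟨gv a f, ?_⟩
  intro u v hu hv huv
  rcases huv.2.2 with hE | hE
  · exact gv_E h f hf hu hv hE
  · have := gv_E h f hf hv hu hE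
    rw [fanti u v]
    linarith

/-- the cell on the left column of level `t` -/
def col (l j t : ℕ) : RV := .inl (t, j * 8 ^ (t - l))

lemma col_mem {a b l j t : ℕ} (hat : a ≤ t) (htb : t < b) : col l j t ∈ Rc a b l j :=
  mem_Rc.2 ⟨hat, htb, Nat.mul_div_cancel _ (p8 _)⟩

lemma col_adj {a b l j t : ℕ} (h : Ok a b l j) (hat : a ≤ t) (htb : t + 1 < b) :
    G0.Adj (col l j t) (col l j (t + 1)) := by
  refine h.adjD (col_mem hat (by omega)) (col_mem (by omega) htb) ?_
  have hla := h.hla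
  have e : 8 ^ (t + 1 - l) = 8 * 8 ^ (t - l) := by
    rw [← pow_succ']; congr 1; omega
  rw [e, ← mul_assoc, mul_comm j 8, mul_assoc, Nat.mul_div_cancel_left _ (by norm_num)]

/-- the rectangle of a block together with the hub -/
theorem H1_hub {a b n j : ℕ} (h : Ok a b (lam n) j) (hab : a < b)
    (hb : ∀ t, a ≤ t → t < b → Nb t = n) :
    H1 G0 (Rc a b (lam n) j ∪ {.inr (n, j)}) := by
  classical
  intro f fanti hf
  obtain ⟨g, hg⟩ := H1_Rc h f fanti (fun u v w hu hv hw => hf u v w (Or.inl hu) (Or.inl hv)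
    (Or.inl hw))
  have hwd : ∀ t, a ≤ t → t < b → j * wd t = j * 8 ^ (t - lam n) := by
    intro t h1 h2
    unfold wd; rw [hb t h1 h2]
  have hadj : ∀ t, a ≤ t → t < b → G0.Adj (.inr (n, j)) (col (lam n) j t) := by
    intro t h1 h2
    refine ⟨h.hj, h.valid (col_mem h1 h2), Or.inl ⟨hb t h1 h2, ?_⟩⟩
    rw [hwd t h1 h2]
  set c : ℤ := g (col (lam n) j a) + f (col (lam n) j a) (.inr (n, j)) with hc
  have hcol : ∀ d, a + d < b → g (col (lam n) j (a + d)) + f (col (lam n) j (a + d)) (.inr (n, j))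
      = c := by
    intro d
    induction d with
    | zero => intro _; rfl
    | succ d ih =>
      intro hd
      have h1 := ih (by omega)
      have hA := col_adj h (t := a + d) (by omega) (by omega)
      have m1 : col (lam n) j (a + d) ∈ Rc a b (lam n) j := col_mem (by omega) (by omega)
      have m2 : col (lam n) j (a + d + 1) ∈ Rc a b (lam n) j := col_mem (by omega) (by omega)
      have h2 := hg _ _ m1 m2 hA
      have h3 := hf _ _ (.inr (n, j)) (Or.inl m1) (Or.inl m2) (Or.inr rfl) hA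
        (hadj (a + d + 1) (by omega) (by omega)).symm (hadj (a + d) (by omega) (by omega)).symm
      show g (col (lam n) j (a + d + 1)) + f (col (lam n) j (a + d + 1)) (.inr (n, j)) = c
      linarith
  refine ⟨fun v => if v = .inr (n, j) then c else g v, ?_⟩
  have key1 : ∀ u, u ∈ Rc a b (lam n) j → G0.Adj u (.inr (n, j)) →
      c - g u = f u (.inr (n, j)) := by
    intro u hu huv
    rcases u with ⟨t, i⟩ | p
    swap
    · exact hu.elim
    obtain ⟨h1, h2, h3⟩ := mem_Rc.1 hu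
    rcases huv.2.2 with hE | hE
    · exact hE.elim
    · obtain ⟨-, hi⟩ := hE
      obtain ⟨d, rfl⟩ : ∃ d, t = a + d := ⟨t - a, by omega⟩
      have h4 := hcol d h2
      have e : (Sum.inl (a + d, i) : RV) = col (lam n) j (a + d) := by
        unfold col; rw [hi, hwd _ h1 h2]
      rw [e]; linarith
  intro u v hu hv huv
  by_cases hu' : u = .inr (n, j)
  · by_cases hv' : v = .inr (n, j)
    · exact absurd (hu'.trans hv'.symm) huv.ne
    · simp only [hu', hv', if_true, if_false]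
      have hvR : v ∈ Rc a b (lam n) j := hv.resolve_right hv'
      have := key1 v hvR (hu' ▸ huv.symm)
      rw [fanti]; linarith
  · have huR : u ∈ Rc a b (lam n) j := hu.resolve_right hu'
    by_cases hv' : v = .inr (n, j)
    · simp only [hu', hv', if_true, if_false]
      exact key1 u huR (hv' ▸ huv)
    · simp only [hu', hv', if_false]
      exact hg u v huR (hv.resolve_right hv') huv

end Pool.Agent.H728R3
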