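import Mathlib
import Pool.Agent.H728R3.Strip

set_option autoImplicit false

namespace Pool.Agent.H728R3

/-- possible neighbours of a cell among the cells -/
def nbs (x : ℕ × ℕ) : Finset (ℕ × ℕ) :=
  {(x.1, x.2 + 1), (x.1, x.2 - 1), (x.1 - 1, x.2 / 8), (x.1 - 1, x.2 / 8 - 1)} ∪
    (Finset.range 9).image (fun a => (x.1 + 1, 8 * x.2 + a))

lemma card_nbs (x : ℕ × ℕ) : (nbs x).card ≤ 16 := by
  classical
  unfold nbs
  refine (Finset.card_union_le _ _).trans ?_
  have h1 := Finset.card_image_le (s := Finset.range 9) (f := fun a => (x.1 + 1, 8 * x.2 + a))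
  rw [Finset.card_range] at h1
  have h2 : ({(x.1, x.2 + 1), (x.1, x.2 - 1), (x.1 - 1, x.2 / 8), (x.1 - 1, x.2 / 8 - 1)} :
      Finset (ℕ × ℕ)).card ≤ 4 := Finset.card_le_four
  omega

lemma E_nbs {x y : ℕ × ℕ} (h : E (.inl x) (.inl y)) : y ∈ nbs x ∧ x ∈ nbs y := by
  classical
  obtain ⟨t, i⟩ := x
  obtain ⟨t', i'⟩ := y
  unfold nbs
  simp only [Finset.mem_union, Finset.mem_insert, Finset.mem_singleton, Finset.mem_image,
    Finset.mem_range, Prod.mk.injEq]
  rcases h with ⟨rfl, rfl, -⟩ | ⟨rfl, hc | ⟨rfl, -⟩⟩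
  · exact ⟨by simp, by simp⟩
  · refine ⟨Or.inr ⟨i' - 8 * i, by omega, by omega, by omega⟩, Or.inl ?_⟩
    right; right; left
    exact ⟨by omega, by omega⟩
  · refine ⟨Or.inr ⟨8, by omega, by omega, by omega⟩, Or.inl ?_⟩
    right; right; right
    exact ⟨by omega, by omega⟩

lemma adj_nbs {x y : ℕ × ℕ} (h : G0.Adj (.inl x) (.inl y)) : y ∈ nbs x := by
  rcases h.2.2 with h | h
  · exact (E_nbs h).1
  · exact (E_nbs h).2

/-- lists of `k + 1` cells starting at `x` -/
def P : ℕ → ℕ × ℕ → Finset (List RV)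
  | 0, x => {[.inl x]}
  | k + 1, x => (nbs x).biUnion (fun y => (P k y).image (fun l => .inl x :: l))

lemma card_P (k : ℕ) (x : ℕ × ℕ) : (P k x).card ≤ 16 ^ k := by
  induction k generalizing x with
  | zero => simp [P]
  | succ k ih =>
    simp only [P]
    refine Finset.card_biUnion_le.trans ?_
    calc ∑ y ∈ nbs x, ((P k y).image (fun l => .inl x :: l)).card
        ≤ ∑ y ∈ nbs x, 16 ^ k := Finset.sum_le_sum (fun y _ => Finset.card_image_le.trans (ih y))
      _ = (nbs x).card * 16 ^ k := by rw [Finset.sum_const, smul_eq_mul]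
      _ ≤ 16 * 16 ^ k := Nat.mul_le_mul_right _ (card_nbs x)
      _ = 16 ^ (k + 1) := by rw [pow_succ]; ring

lemma length_P {k : ℕ} {x : ℕ × ℕ} {l : List RV} (h : l ∈ P k x) : l.length = k + 1 := by
  induction k generalizing x l with
  | zero =>
    simp only [P, Finset.mem_singleton] at h
    rw [h]; rfl
  | succ k ih =>
    simp only [P, Finset.mem_biUnion, Finset.mem_image] at h
    obtain ⟨y, -, l', hl', rfl⟩ := h
    rw [List.length_cons, ih hl']

/-- there is no long closed path of cells -/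
def Good (O : Set RV) : Prop :=
  ∀ t i, Valid (.inl (t, i)) → ∀ l ∈ P (t / 4 - 2) (t, i), l.Nodup → (∀ v ∈ l, Valid v) →
    ∃ v ∈ l, v ∈ O

lemma chain_P {Q : Set RV} (hQ : ∀ v ∈ Q, ∃ p, v = .inl p) (k : ℕ) (x : ℕ × ℕ) (l : List RV)
    (hk : k ≤ l.length) (hc : List.IsChain G0.Adj (.inl x :: l)) (hl : ∀ v ∈ l, v ∈ Q) :
    (Sum.inl x :: l.take k) ∈ P k x := by
  induction k generalizing x l with
  | zero => simp [P]
  | succ k ih =>
    rcases l with _ | ⟨v, l⟩
    · simp at hk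
    · obtain ⟨y, rfl⟩ := hQ v (hl v (by simp))
      simp only [P, Finset.mem_biUnion, Finset.mem_image]
      rw [List.isChain_cons_cons] at hc
      refine ⟨y, adj_nbs hc.1, _, ih y l (by simpa using hk) hc.2
        (fun v hv => hl v (List.mem_cons_of_mem _ hv)), ?_⟩
      simp

lemma conn_walk {Q : Set RV} {u v : RV} (h : Conn G0 Q u v) (hu : u ∈ Q) :
    ∃ p : G0.Walk u v, ∀ x ∈ p.support, x ∈ Q := by
  induction h with
  | refl => exact ⟨SimpleGraph.Walk.nil, by simpa using hu⟩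
  | tail _ h2 ih =>
    obtain ⟨p, hp⟩ := ih
    refine ⟨p.concat h2.1, ?_⟩
    intro x hx
    rw [SimpleGraph.Walk.support_concat] at hx
    simp only [List.mem_append, List.mem_singleton] at hx
    rcases hx with hx | hx
    · exact hp x hx
    · rw [hx]; exact h2.2.2

lemma walk_lip {u v : RV} (p : G0.Walk u v) (Q : Set RV) (hp : ∀ x ∈ p.support, x ∈ Q)
    (ψ : RV → ℤ) (hψ : ∀ a b, a ∈ Q → b ∈ Q → G0.Adj a b → |ψ a - ψ b| ≤ 1) :
    |ψ u - ψ v| ≤ p.length := by
  induction p with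
  | nil => simp
  | cons h p ih =>
    rename_i a b c
    have h1 := ih (fun x hx => hp x (by simp [hx]))
    have h2 := hψ a b (hp a (by simp)) (hp b (by simp)) h
    rw [SimpleGraph.Walk.length_cons]
    push_cast
    have h3 : ψ a - ψ c = (ψ a - ψ b) + (ψ b - ψ c) := by ring
    rw [h3]
    have := abs_add_le (ψ a - ψ b) (ψ b - ψ c)
    linarith

theorem no_long {O Q : Set RV} (hG : Good O) (hQv : ∀ v ∈ Q, Valid v) (hQc : ∀ v ∈ Q, ∃ p, v = .inl p)
    (hQO : ∀ v ∈ Q, v ∉ O) {t i : ℕ} {v : RV} (hu : (Sum.inl (t, i) : RV) ∈ Q)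
    (hc : Conn G0 Q (.inl (t, i)) v)
    (ψ : RV → ℤ) (hψ : ∀ a b, a ∈ Q → b ∈ Q → G0.Adj a b → |ψ a - ψ b| ≤ 1)
    (h : ((t / 4 - 2 : ℕ) : ℤ) ≤ |ψ (.inl (t, i)) - ψ v|) : False := by
  classical
  obtain ⟨p, hp⟩ := conn_walk hc hu
  set q := p.bypass with hq
  have hqs : ∀ x ∈ q.support, x ∈ Q := fun x hx => hp x (p.support_bypass_subset_support hx)
  have hlen := walk_lip q Q hqs ψ hψ
  have hlen2 : t / 4 - 2 ≤ q.length := by
    have := h.trans hlen
    exact_mod_cast this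
  have hnd : q.support.Nodup := p.bypass_isPath.support_nodup
  have hch := q.isChain_adj_support
  have hsup : q.support = .inl (t, i) :: q.support.tail := by
    exact (SimpleGraph.Walk.cons_tail_support q).symm
  have hlt : q.support.tail.length = q.length := by
    rw [List.length_tail, SimpleGraph.Walk.length_support]; rfl
  rw [hsup] at hch hnd
  have hmem : (Sum.inl (t, i) :: q.support.tail.take (t / 4 - 2)) ∈ P (t / 4 - 2) (t, i) := by
    refine chain_P (Q := Q) hQc _ _ _ (by rw [hlt]; exact hlen2) hch ?_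
    intro v hv
    exact hqs v (List.mem_of_mem_tail hv)
  have hsub : ∀ v ∈ (Sum.inl (t, i) :: q.support.tail.take (t / 4 - 2)), v ∈ Q := by
    intro v hv
    rcases List.mem_cons.1 hv with rfl | hv
    · exact hu
    · exact hqs v (List.mem_of_mem_tail (List.mem_of_mem_take hv))
  have hnd2 : (Sum.inl (t, i) :: q.support.tail.take (t / 4 - 2) : List RV).Nodup := by
    refine List.Nodup.sublist ?_ hnd
    exact List.Sublist.cons_cons _ (List.take_sublist _ _)
  obtain ⟨w, hw, hwO⟩ := hG t i (hQv _ hu) _ hmem hnd2 (fun v hv => hQv v (hsub v hv))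
  exact hQO w (hsub w hw) hwO

/-- a path contains a crossing of every intermediate interval of values -/
theorem subcross {S : Set RV} (L : RV → ℤ)
    (hL : ∀ a b, a ∈ S → b ∈ S → G0.Adj a b → |L a - L b| ≤ 1) {x y : RV}
    (hx : x ∈ S) (h : Conn G0 S x y) {c d : ℤ} (hc : L x ≤ c) (hcd : c ≤ d) (hd : d ≤ L y) :
    ∃ x' y', x' ∈ S ∧ y' ∈ S ∧ L x' = c ∧ L y' = d ∧ Conn G0 S x x' ∧
      Conn G0 (S ∩ {v | c ≤ L v ∧ L v ≤ d}) x' y' := by
  set T : Set RV := S ∩ {v | c ≤ L v ∧ L v ≤ d} with hT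
  set Dn : Prop := ∃ x' y', x' ∈ S ∧ y' ∈ S ∧ L x' = c ∧ L y' = d ∧ Conn G0 S x x' ∧
      Conn G0 T x' y' with hDn
  have key : Conn G0 S x y ∧ (Dn ∨ L y < c ∨
      ∃ x', x' ∈ S ∧ L x' = c ∧ Conn G0 S x x' ∧ Conn G0 T x' y) := by
    refine Conn.inv (P := fun z => Conn G0 S x z ∧ (Dn ∨ L z < c ∨
      ∃ x', x' ∈ S ∧ L x' = c ∧ Conn G0 S x x' ∧ Conn G0 T x' z)) ?_ h ?_
    · rintro z w ⟨hz0, hz⟩ hzw
      have hw0 : Conn G0 S x w := Relation.ReflTransGen.tail hz0 hzw
      refine ⟨hw0, ?_⟩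
      have hlip := abs_le.1 (hL z w hzw.2.1 hzw.2.2 hzw.1)
      rcases hz with hz | hz | ⟨x', hx'S, hx'c, hxx', hx'z⟩
      · exact Or.inl hz
      · right
        by_cases hw : L w < c
        · exact Or.inl hw
        · right
          exact ⟨w, hzw.2.2, by omega, hw0, Conn.refl w⟩
      · have hx'T : x' ∈ T := ⟨hx'S, by constructor <;> omega⟩
        have hzT : z ∈ T := Conn.mem hx'z hx'T
        obtain ⟨hzS, hz1, hz2⟩ := hzT
        by_cases hzd : L z = d
        · left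
          exact ⟨x', z, hx'S, hzS, hx'c, hzd, hxx', hx'z⟩
        · right
          by_cases hw : L w < c
          · exact Or.inl hw
          · right
            have hwT : w ∈ T := ⟨hzw.2.2, by constructor <;> omega⟩
            exact ⟨x', hx'S, hx'c, hxx', Relation.ReflTransGen.tail hx'z
              ⟨hzw.1, ⟨hzS, hz1, hz2⟩, hwT⟩⟩
    · refine ⟨Conn.refl x, Or.inr ?_⟩
      by_cases hxc : L x < c
      · exact Or.inl hxc
      · exact Or.inr ⟨x, hx, by omega, Conn.refl x, Conn.refl x⟩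
  obtain ⟨hy0, hy | hy | ⟨x', hx'S, hx'c, hxx', hx'y⟩⟩ := key
  · exact hy
  · omega
  · have hx'T : x' ∈ T := ⟨hx'S, by constructor <;> omega⟩
    have hyT : y ∈ T := Conn.mem hx'y hx'T
    obtain ⟨hyS, hy1, hy2⟩ := hyT
    exact ⟨x', y, hx'S, hyS, hx'c, by omega, hxx', hx'y⟩

end Pool.Agent.H728R3
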