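import Mathlib
import Pool.Agent.H728R3.Path

set_option autoImplicit false

namespace Pool.Agent.H728R3

/-- general form of the connection argument -/
theorem gen {O O' W T B : Set RV} (hG : Good O) (hH : H1 G0 W) (hO' : O' ⊆ W)
    (hcell : ∀ v ∈ W \ O', Valid v ∧ v ∉ O ∧ ∃ p, v = .inl p) {x y : RV} (hx : x ∈ O') (hy : y ∈ O')
    (hT : ∀ Q ⊆ W \ O', (∀ v ∈ Q, v ∉ T) → Conn G0 (W \ Q) x y)
    (hB : ∀ Q ⊆ W \ O', (∀ v ∈ Q, v ∉ B) → Conn G0 (W \ Q) x y)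
    (ψ : RV → ℤ) (hψ : ∀ a b, a ∈ W \ O' → b ∈ W \ O' → G0.Adj a b → |ψ a - ψ b| ≤ 1)
    (hfar : ∀ t i v, (Sum.inl (t, i) : RV) ∈ T → v ∈ B →
      ((t / 4 - 2 : ℕ) : ℤ) ≤ |ψ (.inl (t, i)) - ψ v|) : Conn G0 O' x y := by
  by_contra hxy
  obtain ⟨Q, hQ1, hQ2, hQ3⟩ := sep hO' hH hx hy hxy
  have h1 : ∃ v ∈ Q, v ∈ T := by
    by_contra hc; push Not at hc
    exact hQ3 (hT Q hQ1 hc)
  have h2 : ∃ v ∈ Q, v ∈ B := by
    by_contra hc; push Not at hc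
    exact hQ3 (hB Q hQ1 hc)
  obtain ⟨u, huQ, huT⟩ := h1
  obtain ⟨v, hvQ, hvB⟩ := h2
  obtain ⟨-, -, ⟨t, i⟩, rfl⟩ := hcell u (hQ1 huQ)
  exact no_long hG (fun w hw => (hcell w (hQ1 hw)).1) (fun w hw => (hcell w (hQ1 hw)).2.2)
    (fun w hw => (hcell w (hQ1 hw)).2.1) huQ (hQ2 _ huQ _ hvQ) ψ
    (fun a b ha hb => hψ a b (hQ1 ha) (hQ1 hb)) (hfar t i v huT hvB)

/-- level of a cell -/
def lev : RV → ℤ
  | .inl (t, _) => t
  | .inr _ => 0

lemma lev_lip {a b : RV} (ha : ∃ p, a = .inl p) (hb : ∃ p, b = .inl p) (h : G0.Adj a b) :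
    |lev a - lev b| ≤ 1 := by
  obtain ⟨⟨t, i⟩, rfl⟩ := ha
  obtain ⟨⟨t', i'⟩, rfl⟩ := hb
  have key : t = t' ∨ t' = t + 1 ∨ t = t' + 1 := by
    rcases h.2.2 with h | h
    · rcases h with ⟨h1, -⟩ | ⟨h1, -⟩ <;> omega
    · rcases h with ⟨h1, -⟩ | ⟨h1, -⟩ <;> omega
  simp only [lev]
  rw [abs_le]
  constructor <;> omega

/-- horizontal position, in units of the level `c` -/
def pos (c : ℕ) : RV → ℤ
  | .inl (t, i) => ((i / 8 ^ (t - c) : ℕ) : ℤ)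
  | .inr _ => 0

lemma div_succ_le (i m : ℕ) (hm : 0 < m) : (i + 1) / m ≤ i / m + 1 := by
  calc (i + 1) / m ≤ (i + m) / m := Nat.div_le_div_right (by omega)
    _ = i / m + 1 := Nat.add_div_right _ hm

lemma pos_E {c t i t' i' : ℕ} (hc : c ≤ t) (h : E (.inl (t, i)) (.inl (t', i'))) :
    |pos c (.inl (t, i)) - pos c (.inl (t', i'))| ≤ 1 := by
  simp only [pos]
  have h1 := div_succ_le i (8 ^ (t - c)) (p8 _)
  have h2 : i / 8 ^ (t - c) ≤ (i + 1) / 8 ^ (t - c) := Nat.div_le_div_right (by omega)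
  rcases h with ⟨rfl, rfl, -⟩ | ⟨rfl, h | ⟨rfl, -⟩⟩
  · rw [abs_le]; constructor <;> omega
  · rw [div8 hc, h]; simp
  · have e8 : (8 * i + 8) / 8 = i + 1 := by omega
    rw [div8 hc, e8]
    rw [abs_le]; constructor <;> omega

lemma pos_lip {c a b l j : ℕ} (hc : c ≤ a) {u v : RV} (hu : u ∈ Rc a b l j) (hv : v ∈ Rc a b l j)
    (h : G0.Adj u v) : |pos c u - pos c v| ≤ 1 := by
  rcases u with ⟨t, i⟩ | p
  swap
  · exact hu.elim
  rcases v with ⟨t', i'⟩ | p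
  swap
  · exact hv.elim
  have h1 := (mem_Rc.1 hu).1
  have h2 := (mem_Rc.1 hv).1
  rcases h.2.2 with h | h
  · exact pos_E (by omega) h
  · rw [abs_sub_comm]
    exact pos_E (by omega) h

lemma Rc_cell {a b l j : ℕ} {v : RV} (h : v ∈ Rc a b l j) : ∃ p, v = .inl p := by
  rcases v with p | p
  · exact ⟨p, rfl⟩
  · exact h.elim

lemma Ok.valid' {a b l j : ℕ} {v : RV} (h : Ok a b l j) (hm : v ∈ Rc a b l j) : Valid v := by
  obtain ⟨⟨t, i⟩, rfl⟩ := Rc_cell hm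
  exact h.valid hm

/-- rows are connected -/
lemma row_conn_aux {a b l j t i : ℕ} (h : Ok a b l j) {S : Set RV}
    (hS : ∀ k, (Sum.inl (t, k) : RV) ∈ Rc a b l j → (Sum.inl (t, k) : RV) ∈ S)
    (hm : (Sum.inl (t, i) : RV) ∈ Rc a b l j) (d : ℕ)
    (hm' : (Sum.inl (t, i + d) : RV) ∈ Rc a b l j) :
    Conn G0 S (.inl (t, i)) (.inl (t, i + d)) := by
  induction d with
  | zero => exact Conn.refl _
  | succ d ih =>
    obtain ⟨h1, h2, h3⟩ := mem_Rc.1 hm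
    obtain ⟨-, -, h3'⟩ := mem_Rc.1 hm'
    have hmid : (Sum.inl (t, i + d) : RV) ∈ Rc a b l j := by
      refine mem_Rc.2 ⟨h1, h2, ?_⟩
      have e1 : i / 8 ^ (t - l) ≤ (i + d) / 8 ^ (t - l) := Nat.div_le_div_right (by omega)
      have e2 : (i + d) / 8 ^ (t - l) ≤ (i + (d + 1)) / 8 ^ (t - l) :=
        Nat.div_le_div_right (by omega)
      omega
    exact (ih hmid).trans (Conn.step (h.adjH hmid hm') (hS _ hmid) (hS _ hm'))

lemma row_conn {a b l j t i i' : ℕ} (h : Ok a b l j) {S : Set RV}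
    (hS : ∀ k, (Sum.inl (t, k) : RV) ∈ Rc a b l j → (Sum.inl (t, k) : RV) ∈ S)
    (hm : (Sum.inl (t, i) : RV) ∈ Rc a b l j)
    (hm' : (Sum.inl (t, i') : RV) ∈ Rc a b l j) :
    Conn G0 S (.inl (t, i)) (.inl (t, i')) := by
  rcases le_total i i' with hi | hi
  · obtain ⟨d, rfl⟩ := Nat.exists_eq_add_of_le hi
    exact row_conn_aux h hS hm d hm'
  · obtain ⟨d, rfl⟩ := Nat.exists_eq_add_of_le hi
    exact (row_conn_aux h hS hm' d hm).symm

lemma col_conn {a b c : ℕ} {S : Set RV} (d : ℕ) (hca : a ≤ c) (hcb : c + d < b)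
    (cl : ℕ → ℕ) (hS : ∀ k, a ≤ k → k < b → (Sum.inl (k, cl k) : RV) ∈ S)
    (hadj : ∀ k, a ≤ k → k + 1 < b → G0.Adj (.inl (k, cl k)) (.inl (k + 1, cl (k + 1)))) :
    Conn G0 S (.inl (c, cl c)) (.inl (c + d, cl (c + d))) := by
  induction d with
  | zero => exact Conn.refl _
  | succ d ih =>
    exact (ih (by omega)).trans (Conn.step (hadj (c + d) (by omega) (by omega))
      (hS _ (by omega) (by omega)) (hS _ (by omega) (by omega)))

/-- the inner part of the `j`-th strip of block `n` -/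
def W0 (n j : ℕ) : Set RV := Rc (32 * 2 ^ n + 1) (64 * 2 ^ n - 1) (lam n) j

lemma two_pow_pos (n : ℕ) : 1 ≤ 2 ^ n := Nat.one_le_two_pow

lemma ok_W0 {n j : ℕ} (hj : j < 8 ^ lam n) :
    Ok (32 * 2 ^ n + 1) (64 * 2 ^ n - 1) (lam n) j := by
  have := two_pow_pos n
  refine ⟨by omega, by unfold lam; omega, hj, ?_⟩
  intro t h1 h2
  rw [(Nb_eq_iff (t := t) (n := n) (by omega)).2 ⟨by omega, by omega⟩]

/-- `x` is in a crossing cluster of the `j`-th strip of block `n` -/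
def Cr (O : Set RV) (n j : ℕ) (x : RV) : Prop :=
  x ∈ O ∩ W0 n j ∧
  (∃ i, (Sum.inl (32 * 2 ^ n + 1, i) : RV) ∈ W0 n j ∧
    Conn G0 (O ∩ W0 n j) x (.inl (32 * 2 ^ n + 1, i))) ∧
  (∃ i, (Sum.inl (64 * 2 ^ n - 2, i) : RV) ∈ W0 n j ∧
    Conn G0 (O ∩ W0 n j) x (.inl (64 * 2 ^ n - 2, i)))

/-- two crossing clusters of the same strip coincide -/
theorem claim1 {O : Set RV} (hG : Good O) {n j : ℕ} (hj : j < 8 ^ lam n) {x y : RV}
    (hx : Cr O n j x) (hy : Cr O n j y) : Conn G0 O x y := by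
  have hok := ok_W0 hj
  have h2 := two_pow_pos n
  have key : Conn G0 (O ∩ W0 n j) x y := by
    refine gen (O := O) (W := W0 n j) (T := {v | lev v = 32 * 2 ^ n + 1})
      (B := {v | lev v = 64 * 2 ^ n - 2}) hG (H1_Rc hok) Set.inter_subset_right ?_ hx.1 hy.1
      ?_ ?_ lev ?_ ?_
    · intro v hv
      exact ⟨hok.valid' hv.1, fun h => hv.2 ⟨h, hv.1⟩, Rc_cell hv.1⟩
    · intro Q hQ hQT
      obtain ⟨-, ⟨i, hi, hxi⟩, -⟩ := hx
      obtain ⟨-, ⟨i', hi', hyi⟩, -⟩ := hy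
      have hmono : O ∩ W0 n j ⊆ W0 n j \ Q := fun v hv => ⟨hv.2, fun h => (hQ h).2 hv⟩
      refine (hxi.mono hmono).trans (Conn.trans ?_ (hyi.mono hmono).symm)
      refine row_conn hok ?_ hi hi'
      intro k hk
      refine ⟨hk, fun h => hQT _ h ?_⟩
      show lev _ = _
      simp only [lev]; push_cast; ring
    · intro Q hQ hQT
      obtain ⟨-, -, ⟨i, hi, hxi⟩⟩ := hx
      obtain ⟨-, -, ⟨i', hi', hyi⟩⟩ := hy
      have hmono : O ∩ W0 n j ⊆ W0 n j \ Q := fun v hv => ⟨hv.2, fun h => (hQ h).2 hv⟩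
      refine (hxi.mono hmono).trans (Conn.trans ?_ (hyi.mono hmono).symm)
      refine row_conn hok ?_ hi hi'
      intro k hk
      refine ⟨hk, fun h => hQT _ h ?_⟩
      show lev _ = _
      simp only [lev]
      have : 2 ≤ 64 * 2 ^ n := by omega
      push_cast [Nat.cast_sub this]; ring
    · intro a b ha hb hab
      exact lev_lip (Rc_cell ha.1) (Rc_cell hb.1) hab
    · intro t i v hT hB
      have hT' : (t : ℤ) = 32 * 2 ^ n + 1 := hT
      have hB' : lev v = 64 * 2 ^ n - 2 := hB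
      rw [hB']
      simp only [lev]
      rw [hT', le_abs]
      right
      have h3 : (1 : ℤ) ≤ 2 ^ n := by exact_mod_cast h2
      have h4 : t = 32 * 2 ^ n + 1 := by exact_mod_cast hT'
      rw [h4]
      have e : (32 * 2 ^ n + 1) / 4 - 2 ≤ 8 * 2 ^ n := by omega
      have : (((32 * 2 ^ n + 1) / 4 - 2 : ℕ) : ℤ) ≤ 8 * 2 ^ n := by exact_mod_cast e
      linarith
  exact key.mono Set.inter_subset_left

/-- an open hub is connected to the crossing clusters of its strip -/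
theorem claim2 {O : Set RV} (hG : Good O) {n j : ℕ} (hj : j < 8 ^ lam n) {x : RV}
    (hx : Cr O n j x) (hh : (Sum.inr (n, j) : RV) ∈ O) : Conn G0 O x (.inr (n, j)) := by
  have hok := ok_W0 hj
  have h2 := two_pow_pos n
  have hNb : ∀ t, 32 * 2 ^ n + 1 ≤ t → t < 64 * 2 ^ n - 1 → Nb t = n := by
    intro t h1 h3
    exact (Nb_eq_iff (t := t) (n := n) (by omega)).2 ⟨by omega, by omega⟩
  have hadj : ∀ t, 32 * 2 ^ n + 1 ≤ t → t < 64 * 2 ^ n - 1 →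
      G0.Adj (col (lam n) j t) (.inr (n, j)) := by
    intro t h1 h3
    refine ⟨hok.valid (col_mem h1 h3), hj, Or.inr ⟨hNb t h1 h3, ?_⟩⟩
    unfold wd; rw [hNb t h1 h3]
  set W : Set RV := Rc (32 * 2 ^ n + 1) (64 * 2 ^ n - 1) (lam n) j ∪ {.inr (n, j)} with hW
  have hW0W : W0 n j ⊆ W := Set.subset_union_left
  have hcellW : ∀ v ∈ W \ (O ∩ W), v ∈ W0 n j ∧ v ∉ O := by
    intro v hv
    have hvO : v ∉ O := fun h => hv.2 ⟨h, hv.1⟩
    refine ⟨?_, hvO⟩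
    rcases hv.1 with h | h
    · exact h
    · rw [Set.mem_singleton_iff] at h
      exact absurd (h ▸ hh) hvO
  have side : ∀ Q ⊆ W \ (O ∩ W), ∀ t i, 32 * 2 ^ n + 1 ≤ t → t < 64 * 2 ^ n - 1 →
      (Sum.inl (t, i) : RV) ∈ W0 n j → Conn G0 (O ∩ W0 n j) x (.inl (t, i)) →
      (∀ v ∈ Q, ∀ i, v ≠ .inl (t, i)) → Conn G0 (W \ Q) x (.inr (n, j)) := by
    intro Q hQ t i h1 h3 hi hxi hQT
    have hmono : O ∩ W0 n j ⊆ W \ Q := fun v hv =>
      ⟨hW0W hv.2, fun h => (hQ h).2 ⟨hv.1, hW0W hv.2⟩⟩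
    refine (hxi.mono hmono).trans ?_
    have hcm : col (lam n) j t ∈ W0 n j := col_mem h1 h3
    refine Conn.trans (row_conn hok (S := W \ Q) ?_ hi hcm) (Conn.step (hadj t h1 h3) ?_ ?_)
    · intro k hk
      exact ⟨hW0W hk, fun h => hQT _ h k rfl⟩
    · exact ⟨hW0W hcm, fun h => hQT _ h _ rfl⟩
    · exact ⟨Or.inr rfl, fun h => (hQ h).2 ⟨hh, Or.inr rfl⟩⟩
  have key : Conn G0 (O ∩ W) x (.inr (n, j)) := by
    refine gen (O := O) (W := W) (T := {v | lev v = 32 * 2 ^ n + 1})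
      (B := {v | lev v = 64 * 2 ^ n - 2}) hG (H1_hub hok (by omega) hNb) Set.inter_subset_right ?_
      ⟨hx.1.1, hW0W hx.1.2⟩ ⟨hh, Or.inr rfl⟩ ?_ ?_ lev ?_ ?_
    · intro v hv
      obtain ⟨h1, h3⟩ := hcellW v hv
      exact ⟨hok.valid' h1, h3, Rc_cell h1⟩
    · intro Q hQ hQT
      obtain ⟨-, ⟨i, hi, hxi⟩, -⟩ := hx
      refine side Q hQ _ i (le_refl _) (by omega) hi hxi ?_
      rintro v hv k rfl
      refine hQT _ hv ?_
      show lev _ = _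
      simp only [lev]; push_cast; ring
    · intro Q hQ hQT
      obtain ⟨-, -, ⟨i, hi, hxi⟩⟩ := hx
      refine side Q hQ _ i (by omega) (by omega) hi hxi ?_
      rintro v hv k rfl
      refine hQT _ hv ?_
      show lev _ = _
      simp only [lev]
      have : 2 ≤ 64 * 2 ^ n := by omega
      push_cast [Nat.cast_sub this]; ring
    · intro a b ha hb hab
      exact lev_lip (Rc_cell (hcellW a ha).1) (Rc_cell (hcellW b hb).1) hab
    · intro t i v hT hB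
      have hT' : (t : ℤ) = 32 * 2 ^ n + 1 := hT
      have hB' : lev v = 64 * 2 ^ n - 2 := hB
      rw [hB']
      simp only [lev]
      rw [hT', le_abs]
      right
      have h3 : (1 : ℤ) ≤ 2 ^ n := by exact_mod_cast h2
      have h4 : t = 32 * 2 ^ n + 1 := by exact_mod_cast hT'
      rw [h4]
      have e : (32 * 2 ^ n + 1) / 4 - 2 ≤ 8 * 2 ^ n := by omega
      have : (((32 * 2 ^ n + 1) / 4 - 2 : ℕ) : ℤ) ≤ 8 * 2 ^ n := by exact_mod_cast e
      linarith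
  exact key.mono Set.inter_subset_left

end Pool.Agent.H728R3
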