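import Mathlib
import Pool.Agent.H728R3.Uniq

set_option autoImplicit false

namespace Pool.Agent.H728R3

lemma ok_R {n j : ℕ} (hj : j < 8 ^ lam (n + 1)) :
    Ok (32 * 2 ^ n) (128 * 2 ^ n) (lam (n + 1)) j := by
  have := two_pow_pos n
  refine ⟨by omega, by unfold lam; rw [pow_succ]; omega, hj, ?_⟩
  intro t h1 h2
  apply lam_mono
  by_contra hc
  have h3 := Nb_le (t := t) (by omega)
  have h4 : 2 ^ (n + 2) ≤ 2 ^ Nb t := Nat.pow_le_pow_right (by norm_num) (by omega)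
  have h5 : 2 ^ (n + 2) = 4 * 2 ^ n := by rw [pow_add]; ring
  omega

lemma right_div (J m k : ℕ) (hm : 0 < m) (hk : 0 < k) :
    (J * (m * k) + (m * k - 1)) / k = J * m + (m - 1) := by
  have h1 : 0 < m * k := Nat.mul_pos hm hk
  apply Nat.div_eq_of_lt_le
  · have e : (J * m + (m - 1)) * k + k = J * (m * k) + m * k := by
      obtain ⟨m', rfl⟩ : ∃ m', m = m' + 1 := ⟨m - 1, by omega⟩
      simp only [Nat.add_sub_cancel]
      ring
    omega
  · have e : (J * m + (m - 1) + 1) * k = J * (m * k) + m * k := by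
      obtain ⟨m', rfl⟩ : ∃ m', m = m' + 1 := ⟨m - 1, by omega⟩
      simp only [Nat.add_sub_cancel]
      ring
    omega

lemma big_pow (x : ℕ) : 32 * x + 2 ≤ 8 ^ (16 * x + 8) := by
  have h1 : x < 8 ^ x := Nat.lt_pow_self (by norm_num)
  have h2 : 8 ^ (x + 8) ≤ 8 ^ (16 * x + 8) := Nat.pow_le_pow_right (by norm_num) (by omega)
  rw [pow_add] at h2
  have h3 : (8 : ℕ) ^ 8 = 16777216 := by norm_num
  rw [h3] at h2
  omega

/-- crossings of consecutive blocks are connected -/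
theorem claim3 {O : Set RV} (hG : Good O) {n j : ℕ} (hj : j < 8 ^ lam (n + 1)) :
    ∃ x y, Cr O n (j / 8 ^ (lam (n + 1) - lam n)) x ∧ Cr O (n + 1) j y ∧ Conn G0 O x y := by
  have hok := ok_R hj
  have h2 := two_pow_pos n
  have h2z : (1 : ℤ) ≤ 2 ^ n := by exact_mod_cast h2
  set a := 32 * 2 ^ n with ha
  set b := 128 * 2 ^ n with hb
  set l := lam (n + 1) with hl
  set R := Rc a b l j with hR
  have hla : l = 16 * 2 ^ n - 8 := by rw [hl]; unfold lam; rw [pow_succ]; omega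
  set O' : Set RV := {v | v ∈ R ∧ (v ∈ O ∨ lev v = a ∨ lev v = b - 1)} with hO'
  have rowA : ∀ k, (Sum.inl (a, k) : RV) ∈ R → (Sum.inl (a, k) : RV) ∈ O' :=
    fun k hk => ⟨hk, Or.inr (Or.inl rfl)⟩
  have rowB : ∀ k, (Sum.inl (b - 1, k) : RV) ∈ R → (Sum.inl (b - 1, k) : RV) ∈ O' := by
    intro k hk
    refine ⟨hk, Or.inr (Or.inr ?_)⟩
    simp only [lev]
    push_cast [Nat.cast_sub (show 1 ≤ b by omega)]; ring
  set cL : ℕ → ℕ := fun t => j * 8 ^ (t - l) with hcL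
  set cR : ℕ → ℕ := fun t => j * 8 ^ (t - l) + (8 ^ (t - l) - 1) with hcR
  have mL : ∀ t, a ≤ t → t < b → (Sum.inl (t, cL t) : RV) ∈ R := fun t h1 h3 => col_mem h1 h3
  have mR : ∀ t, a ≤ t → t < b → (Sum.inl (t, cR t) : RV) ∈ R := by
    intro t h1 h3
    refine mem_Rc.2 ⟨h1, h3, ?_⟩
    simp only [hcR]
    have hp := p8 (t - l)
    rw [mul_comm, Nat.mul_add_div hp, Nat.div_eq_of_lt (by omega)]; ring
  have adL : ∀ t, a ≤ t → t + 1 < b → G0.Adj (.inl (t, cL t)) (.inl (t + 1, cL (t + 1))) :=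
    fun t h1 h3 => col_adj hok h1 h3
  have adR : ∀ t, a ≤ t → t + 1 < b → G0.Adj (.inl (t, cR t)) (.inl (t + 1, cR (t + 1))) := by
    intro t h1 h3
    refine hok.adjD (mR t h1 (by omega)) (mR (t + 1) (by omega) h3) ?_
    simp only [hcR]
    have e : 8 ^ (t + 1 - l) = 8 ^ (t - l) * 8 := by
      rw [← pow_succ]; congr 1; omega
    rw [e]
    exact right_div j _ 8 (p8 _) (by norm_num)
  set x0 : RV := .inl (a, cL a) with hx0
  set y0 : RV := .inl (b - 1, cL (b - 1)) with hy0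
  have main : Conn G0 O' x0 y0 := by
    refine gen (O := O) (W := R) (T := {v | ∃ t, a ≤ t ∧ t < b ∧ v = .inl (t, cL t)})
      (B := {v | ∃ t, a ≤ t ∧ t < b ∧ v = .inl (t, cR t)}) hG (H1_Rc hok) (fun v hv => hv.1) ?_
      (rowA _ (mL a (le_refl _) (by omega))) (rowB _ (mL (b - 1) (by omega) (by omega)))
      ?_ ?_ (pos a) ?_ ?_
    · intro v hv
      exact ⟨hok.valid' hv.1, fun h => hv.2 ⟨hv.1, Or.inl h⟩, Rc_cell hv.1⟩
    · intro Q hQ hQT
      have := col_conn (a := a) (b := b) (c := a) (S := R \ Q) (b - 1 - a) (le_refl _) (by omega)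
        cL (fun k h1 h3 => ⟨mL k h1 h3, fun h => hQT _ h ⟨k, h1, h3, rfl⟩⟩) adL
      rw [show a + (b - 1 - a) = b - 1 by omega] at this
      exact this
    · intro Q hQ hQT
      have h3 := col_conn (a := a) (b := b) (c := a) (S := R \ Q) (b - 1 - a) (le_refl _) (by omega)
        cR (fun k h1 h3 => ⟨mR k h1 h3, fun h => hQT _ h ⟨k, h1, h3, rfl⟩⟩) adR
      rw [show a + (b - 1 - a) = b - 1 by omega] at h3
      have h4 : Conn G0 (R \ Q) x0 (.inl (a, cR a)) :=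
        row_conn hok (fun k hk => ⟨hk, fun h => (hQ h).2 (rowA k hk)⟩)
          (mL a (le_refl _) (by omega)) (mR a (le_refl _) (by omega))
      have h5 : Conn G0 (R \ Q) (.inl (b - 1, cR (b - 1))) y0 :=
        row_conn hok (fun k hk => ⟨hk, fun h => (hQ h).2 (rowB k hk)⟩)
          (mR (b - 1) (by omega) (by omega)) (mL (b - 1) (by omega) (by omega))
      exact (h4.trans h3).trans h5
    · intro u v hu hv huv
      exact pos_lip (le_refl a) hu.1 hv.1 huv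
    · rintro t i v ⟨t', ht1, ht2, he⟩ ⟨t2, ht3, ht4, rfl⟩
      simp only [Sum.inl.injEq, Prod.mk.injEq] at he
      obtain ⟨rfl, rfl⟩ := he
      have e1 : pos a (.inl (t, cL t)) = ((j * 8 ^ (a - l) : ℕ) : ℤ) := by
        simp only [pos, hcL]
        congr 1
        have e : 8 ^ (t - l) = 8 ^ (a - l) * 8 ^ (t - a) := by
          rw [← pow_add]; congr 1; omega
        rw [e, ← mul_assoc, Nat.mul_div_cancel _ (p8 _)]
      have e2 : pos a (.inl (t2, cR t2)) = ((j * 8 ^ (a - l) + (8 ^ (a - l) - 1) : ℕ) : ℤ) := by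
        simp only [pos, hcR]
        congr 1
        have e : 8 ^ (t2 - l) = 8 ^ (a - l) * 8 ^ (t2 - a) := by
          rw [← pow_add]; congr 1; omega
        rw [e]
        exact right_div j _ _ (p8 _) (p8 _)
      rw [e1, e2, le_abs]
      right
      have e3 : a - l = 16 * 2 ^ n + 8 := by omega
      have e4 := big_pow (2 ^ n)
      have e5 : t / 4 - 2 ≤ 8 ^ (a - l) - 1 := by
        rw [e3]; omega
      have e6 : ((t / 4 - 2 : ℕ) : ℤ) ≤ ((8 ^ (a - l) - 1 : ℕ) : ℤ) := by exact_mod_cast e5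
      push_cast at e6 ⊢
      linarith
  have cellO' : ∀ v ∈ O', ∃ p, v = .inl p := fun v hv => Rc_cell hv.1
  have lipO' : ∀ u v, u ∈ O' → v ∈ O' → G0.Adj u v → |lev u - lev v| ≤ 1 :=
    fun u v hu hv h => lev_lip (cellO' u hu) (cellO' v hv) h
  have hx0O : x0 ∈ O' := rowA _ (mL a (le_refl _) (by omega))
  have haz : (a : ℤ) = 32 * 2 ^ n := by rw [ha]; push_cast; ring
  have hbz : (b : ℤ) = 128 * 2 ^ n := by rw [hb]; push_cast; ring
  have lx0 : lev x0 = a := rfl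
  have ly0 : lev y0 = b - 1 := by
    simp only [hy0, lev]
    push_cast [Nat.cast_sub (show 1 ≤ b by omega)]; ring
  obtain ⟨x', y', hx'O, hy'O, hx'l, hy'l, -, hxy'⟩ := subcross lev lipO' hx0O main
    (c := 32 * 2 ^ n + 1) (d := 128 * 2 ^ n - 2) (by rw [lx0, haz]; linarith) (by linarith)
    (by rw [ly0, hbz]; linarith)
  set S2 : Set RV := O' ∩ {v | (32 : ℤ) * 2 ^ n + 1 ≤ lev v ∧ lev v ≤ 128 * 2 ^ n - 2} with hS2
  have hS2' : S2 ⊆ O ∩ R := by
    rintro v ⟨⟨hvR, hv | hv | hv⟩, h5, h6⟩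
    · exact ⟨hv, hvR⟩
    · rw [haz] at hv; omega
    · rw [hbz] at hv; omega
  have lip2 : ∀ u v, u ∈ S2 → v ∈ S2 → G0.Adj u v → |lev u - lev v| ≤ 1 :=
    fun u v hu hv h => lipO' u v hu.1 hv.1 h
  have hx'S : x' ∈ S2 := ⟨hx'O, by constructor <;> linarith⟩
  obtain ⟨x1, y1, hx1S, hy1S, hx1l, hy1l, hxx1, hxy1⟩ := subcross lev lip2 hx'S hxy'
    (c := 32 * 2 ^ n + 1) (d := 64 * 2 ^ n - 2) (by linarith) (by linarith) (by linarith)
  obtain ⟨x2, y2, hx2S, hy2S, hx2l, hy2l, hxx2, hxy2⟩ := subcross lev lip2 hx'S hxy'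
    (c := 64 * 2 ^ n + 1) (d := 128 * 2 ^ n - 2) (by linarith) (by linarith) (by linarith)
  have memW : ∀ v ∈ S2, (32 : ℤ) * 2 ^ n + 1 ≤ lev v → lev v ≤ 64 * 2 ^ n - 2 →
      v ∈ O ∩ W0 n (j / 8 ^ (l - lam n)) := by
    intro v hv h5 h6
    obtain ⟨hvO, hvR⟩ := hS2' hv
    refine ⟨hvO, ?_⟩
    obtain ⟨⟨t, i⟩, rfl⟩ := Rc_cell hvR
    obtain ⟨h7, h8, h9⟩ := mem_Rc.1 hvR
    simp only [lev] at h5 h6
    have h5' : 32 * 2 ^ n + 1 ≤ t := by exact_mod_cast h5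
    have h6' : t + 2 ≤ 64 * 2 ^ n := by zify; linarith
    refine mem_Rc.2 ⟨h5', by omega, ?_⟩
    have hll : lam n ≤ l := lam_mono (by omega)
    have e : 8 ^ (t - lam n) = 8 ^ (t - l) * 8 ^ (l - lam n) := by
      rw [← pow_add]; congr 1; omega
    rw [e, ← Nat.div_div_eq_div_mul, h9]
  have memW2 : ∀ v ∈ S2, (64 : ℤ) * 2 ^ n + 1 ≤ lev v → lev v ≤ 128 * 2 ^ n - 2 →
      v ∈ O ∩ W0 (n + 1) j := by
    intro v hv h5 h6
    obtain ⟨hvO, hvR⟩ := hS2' hv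
    refine ⟨hvO, ?_⟩
    obtain ⟨⟨t, i⟩, rfl⟩ := Rc_cell hvR
    obtain ⟨h7, h8, h9⟩ := mem_Rc.1 hvR
    simp only [lev] at h5 h6
    have h5' : 64 * 2 ^ n + 1 ≤ t := by exact_mod_cast h5
    have h6' : t + 2 ≤ 128 * 2 ^ n := by zify; linarith
    refine mem_Rc.2 ⟨by rw [pow_succ]; omega, by rw [pow_succ]; omega, h9⟩
  refine ⟨x1, x2, ?_, ?_, ?_⟩
  · have hm : S2 ∩ {v | (32 : ℤ) * 2 ^ n + 1 ≤ lev v ∧ lev v ≤ 64 * 2 ^ n - 2} ⊆
        O ∩ W0 n (j / 8 ^ (l - lam n)) := fun v hv => memW v hv.1 hv.2.1 hv.2.2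
    have hx1W := memW x1 hx1S (by linarith) (by linarith)
    have hy1W := memW y1 hy1S (by linarith) (by linarith)
    refine ⟨hx1W, ?_, ?_⟩
    · obtain ⟨⟨t, i⟩, rfl⟩ := Rc_cell (hS2' hx1S).2
      have ht : t = 32 * 2 ^ n + 1 := by simp only [lev] at hx1l; exact_mod_cast hx1l
      subst ht
      exact ⟨i, hx1W.2, Conn.refl _⟩
    · obtain ⟨⟨t, i⟩, rfl⟩ := Rc_cell (hS2' hy1S).2
      have ht : t = 64 * 2 ^ n - 2 := by
        simp only [lev] at hy1l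
        have : t + 2 = 64 * 2 ^ n := by zify; linarith
        omega
      subst ht
      exact ⟨i, hy1W.2, hxy1.mono hm⟩
  · have hm : S2 ∩ {v | (64 : ℤ) * 2 ^ n + 1 ≤ lev v ∧ lev v ≤ 128 * 2 ^ n - 2} ⊆
        O ∩ W0 (n + 1) j := fun v hv => memW2 v hv.1 hv.2.1 hv.2.2
    have hx2W := memW2 x2 hx2S (by linarith) (by linarith)
    have hy2W := memW2 y2 hy2S (by linarith) (by linarith)
    refine ⟨hx2W, ?_, ?_⟩
    · obtain ⟨⟨t, i⟩, rfl⟩ := Rc_cell (hS2' hx2S).2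
      have ht : t = 32 * 2 ^ (n + 1) + 1 := by
        simp only [lev] at hx2l
        have : t = 64 * 2 ^ n + 1 := by exact_mod_cast hx2l
        rw [pow_succ]; omega
      subst ht
      exact ⟨i, hx2W.2, Conn.refl _⟩
    · obtain ⟨⟨t, i⟩, rfl⟩ := Rc_cell (hS2' hy2S).2
      have ht : t = 64 * 2 ^ (n + 1) - 2 := by
        simp only [lev] at hy2l
        have : t + 2 = 128 * 2 ^ n := by zify; linarith
        rw [pow_succ]; omega
      subst ht
      exact ⟨i, hy2W.2, hxy2.mono hm⟩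
  · exact (hxx1.symm.trans hxx2).mono (fun v hv => (hS2' hv).1)

end Pool.Agent.H728R3
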