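import Mathlib
import Pool.Agent.H728R3.Uniq2

set_option autoImplicit false

namespace Pool.Agent.H728R3

lemma parent_lt {n j : ℕ} (hj : j < 8 ^ lam (n + 1)) :
    j / 8 ^ (lam (n + 1) - lam n) < 8 ^ lam n := by
  have e : 8 ^ lam (n + 1) = 8 ^ (lam (n + 1) - lam n) * 8 ^ lam n := by
    rw [← pow_add]; congr 1; have := lam_succ n; omega
  rw [e] at hj
  exact Nat.div_lt_of_lt_mul hj

theorem link {O : Set RV} (hG : Good O) (n j : ℕ) (hj : j < 8 ^ lam n) (x : RV)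
    (hx : Cr O n j x) : ∃ y, Cr O 0 0 y ∧ Conn G0 O x y := by
  induction n generalizing j x with
  | zero =>
    rw [lam_zero, pow_zero] at hj
    have : j = 0 := by omega
    subst this
    exact ⟨x, hx, Conn.refl x⟩
  | succ n ih =>
    obtain ⟨x1, x2, h1, h2, h12⟩ := claim3 hG hj
    obtain ⟨y, hy, hxy⟩ := ih _ (parent_lt hj) x1 h1
    exact ⟨y, hy, ((claim1 hG hj hx h2).trans h12.symm).trans hxy⟩

theorem cr_conn {O : Set RV} (hG : Good O) {n j m k : ℕ} (hj : j < 8 ^ lam n)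
    (hk : k < 8 ^ lam m) {x y : RV} (hx : Cr O n j x) (hy : Cr O m k y) : Conn G0 O x y := by
  obtain ⟨x', hx', h1⟩ := link hG n j hj x hx
  obtain ⟨y', hy', h2⟩ := link hG m k hk y hy
  exact (h1.trans (claim1 hG (by rw [lam_zero]; norm_num) hx' hy')).trans h2.symm

theorem cr_exists {O : Set RV} (hG : Good O) {n j : ℕ} (hj : j < 8 ^ lam n) :
    ∃ x, Cr O n j x := by
  have h := hchild_valid (n := n) (j := j) (a := 0) hj (p8 _)
  rw [add_zero] at h
  obtain ⟨x, y, hx, -, -⟩ := claim3 hG (n := n) h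
  rw [Nat.mul_div_cancel _ (p8 _)] at hx
  exact ⟨x, hx⟩

/-- strip index in block `n` -/
def st (n : ℕ) : RV → ℕ
  | .inl (t, i) => i / 8 ^ (t - lam n)
  | .inr _ => 0

lemma st_E {n t i t' i' : ℕ} (ht : 32 ≤ t) (h1 : Nb t = n) (h2 : Nb t' = n)
    (h : E (.inl (t, i)) (.inl (t', i'))) : st n (.inl (t, i)) = st n (.inl (t', i')) := by
  have hl := lam_Nb_le ht
  rw [h1] at hl
  simp only [st]
  rcases h with ⟨rfl, rfl, h⟩ | ⟨rfl, h | ⟨rfl, h⟩⟩
  · unfold wd at h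
    rwa [h1] at h
  · rw [div8 (by omega), h]
  · unfold wd at h
    rw [h2, div8 (by omega), div8 (i := 8 * i + 8) (by omega)] at h
    rw [div8 (i := 8 * i + 8) (by omega), ← h]
    congr 1
    omega

lemma conn_self {O : Set RV} {x z : RV} (h : Conn G0 O x z) :
    Conn G0 {w | w ∈ O ∧ Conn G0 O x w} x z := by
  have : (Conn G0 O x z ∧ Conn G0 {w | w ∈ O ∧ Conn G0 O x w} x z) := by
    refine Conn.inv (P := fun z => Conn G0 O x z ∧ Conn G0 {w | w ∈ O ∧ Conn G0 O x w} x z)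
      ?_ h ⟨Conn.refl x, Conn.refl x⟩
    rintro u v ⟨h1, h2⟩ huv
    have h3 : Conn G0 O x v := Relation.ReflTransGen.tail h1 huv
    exact ⟨h3, Relation.ReflTransGen.tail h2 ⟨huv.1, ⟨huv.2.1, h1⟩, ⟨huv.2.2, h3⟩⟩⟩
  exact this.2

theorem claim4 {O : Set RV} (hG : Good O) (hO : ∀ v ∈ O, Valid v) {x : RV} (hx : x ∈ O)
    (hinf : {z | Conn G0 O x z}.Infinite) :
    ∃ n j z, j < 8 ^ lam n ∧ Cr O n j z ∧ Conn G0 O x z := by
  have hmem : ∀ z, Conn G0 O x z → z ∈ O := fun z hz => Conn.mem hz hx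
  by_cases hhub : ∃ n j, Conn G0 O x (.inr (n, j))
  · obtain ⟨n, j, h⟩ := hhub
    have hh := hmem _ h
    have hj : j < 8 ^ lam n := hO _ hh
    obtain ⟨z, hz⟩ := cr_exists hG hj
    exact ⟨n, j, z, hj, hz, h.trans (claim2 hG hj hz hh).symm⟩
  · push Not at hhub
    have hcell : ∀ z, Conn G0 O x z → ∃ p, z = .inl p := by
      intro z hz
      rcases z with p | ⟨n, j⟩
      · exact ⟨p, rfl⟩
      · exact absurd hz (hhub n j)
    obtain ⟨⟨t0, i0⟩, rfl⟩ := hcell x (Conn.refl x)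
    set n := t0 with hn
    have h2 := two_pow_pos n
    have ht0 : n < 2 ^ n := Nat.lt_two_pow_self
    have hex : ∃ z, Conn G0 O (.inl (t0, i0)) z ∧ (64 : ℤ) * 2 ^ n < lev z := by
      by_contra hc
      push Not at hc
      apply hinf
      refine (fin_box (64 * 2 ^ n + 8 ^ (64 * 2 ^ n))).subset ?_
      intro z hz
      obtain ⟨⟨t, i⟩, rfl⟩ := hcell z hz
      have h1 := hc _ hz
      simp only [lev] at h1
      have h3 : t ≤ 64 * 2 ^ n := by exact_mod_cast h1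
      have h4 : i < 8 ^ t := (hO _ (hmem _ hz)).2
      have h5 : 8 ^ t ≤ 8 ^ (64 * 2 ^ n) := Nat.pow_le_pow_right (by norm_num) h3
      constructor
      · simp only [co1]; omega
      · simp only [co2]; omega
    obtain ⟨z, hz, hzl⟩ := hex
    set S : Set RV := {w | w ∈ O ∧ Conn G0 O (.inl (t0, i0)) w} with hS
    have hlip : ∀ a b, a ∈ S → b ∈ S → G0.Adj a b → |lev a - lev b| ≤ 1 :=
      fun a b ha hb h => lev_lip (hcell a ha.2) (hcell b hb.2) h
    have h2z : (1 : ℤ) ≤ 2 ^ n := by exact_mod_cast h2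
    have ht0z : (n : ℤ) < 2 ^ n := by exact_mod_cast ht0
    obtain ⟨x', y', hx'S, hy'S, hx'l, hy'l, -, hxy'⟩ := subcross lev hlip
      (show (Sum.inl (t0, i0) : RV) ∈ S from ⟨hx, Conn.refl _⟩) (conn_self hz)
      (c := 32 * 2 ^ n + 1) (d := 64 * 2 ^ n - 2) (by simp only [lev]; linarith) (by linarith)
      (by linarith)
    set j := st n x' with hj
    -- cells of the block
    have hNb : ∀ t i, (Sum.inl (t, i) : RV) ∈ S ∩
        {v | (32 : ℤ) * 2 ^ n + 1 ≤ lev v ∧ lev v ≤ 64 * 2 ^ n - 2} →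
        32 * 2 ^ n + 1 ≤ t ∧ t < 64 * 2 ^ n - 1 ∧ Nb t = n := by
      rintro t i ⟨-, h5, h6⟩
      simp only [lev] at h5 h6
      have h5' : 32 * 2 ^ n + 1 ≤ t := by exact_mod_cast h5
      have h6' : t + 2 ≤ 64 * 2 ^ n := by zify; linarith
      exact ⟨h5', by omega, (Nb_eq_iff (t := t) (n := n) (by omega)).2 ⟨by omega, by omega⟩⟩
    have hmW : ∀ v ∈ S ∩ {v | (32 : ℤ) * 2 ^ n + 1 ≤ lev v ∧ lev v ≤ 64 * 2 ^ n - 2},
        st n v = j → v ∈ O ∩ W0 n j := by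
      intro v hv hst
      obtain ⟨⟨t, i⟩, rfl⟩ := hcell v hv.1.2
      obtain ⟨h5, h6, -⟩ := hNb t i hv
      exact ⟨hv.1.1, mem_Rc.2 ⟨h5, h6, hst⟩⟩
    have hx'T : x' ∈ S ∩ {v | (32 : ℤ) * 2 ^ n + 1 ≤ lev v ∧ lev v ≤ 64 * 2 ^ n - 2} :=
      ⟨hx'S, by constructor <;> linarith⟩
    have hx'W := hmW x' hx'T rfl
    have key : y' ∈ O ∩ W0 n j ∧ st n y' = j ∧ Conn G0 (O ∩ W0 n j) x' y' := by
      refine Conn.inv (P := fun v => v ∈ O ∩ W0 n j ∧ st n v = j ∧ Conn G0 (O ∩ W0 n j) x' v)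
        ?_ hxy' ⟨hx'W, rfl, Conn.refl x'⟩
      rintro u v ⟨hu1, hu2, hu3⟩ huv
      have hst : st n v = j := by
        rw [← hu2]
        obtain ⟨hadj, huT, hvT⟩ := huv
        obtain ⟨⟨t, i⟩, rfl⟩ := hcell u huT.1.2
        obtain ⟨⟨t', i'⟩, rfl⟩ := hcell v hvT.1.2
        obtain ⟨h5, h6, h7⟩ := hNb t i huT
        obtain ⟨h5', h6', h7'⟩ := hNb t' i' hvT
        rcases hadj.2.2 with h | h
        · exact (st_E (by omega) h7 h7' h).symm
        · exact st_E (by omega) h7' h7 h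
      have hvW := hmW v huv.2.2 hst
      exact ⟨hvW, hst, Relation.ReflTransGen.tail hu3 ⟨huv.1, hu1, hvW⟩⟩
    obtain ⟨hy'W, -, hcon⟩ := key
    have hjlt : j < 8 ^ lam n := by
      obtain ⟨⟨t, i⟩, rfl⟩ := hcell x' hx'S.2
      obtain ⟨h5, h6, h7⟩ := hNb t i hx'T
      have hv := (hO _ hx'S.1).2
      have hl := lam_Nb_le (t := t) (by omega)
      rw [h7] at hl
      show i / 8 ^ (t - lam n) < 8 ^ lam n
      apply Nat.div_lt_of_lt_mul
      rw [← pow_add]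
      rwa [show t - lam n + lam n = t by omega]
    refine ⟨n, j, x', hjlt, ⟨hx'W, ?_, ?_⟩, hx'S.2⟩
    · obtain ⟨⟨t, i⟩, rfl⟩ := hcell x' hx'S.2
      have ht : t = 32 * 2 ^ n + 1 := by simp only [lev] at hx'l; exact_mod_cast hx'l
      subst ht
      exact ⟨i, hx'W.2, Conn.refl _⟩
    · obtain ⟨⟨t, i⟩, rfl⟩ := hcell y' hy'S.2
      have ht : t = 64 * 2 ^ n - 2 := by
        simp only [lev] at hy'l
        have : t + 2 = 64 * 2 ^ n := by zify; linarith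
        omega
      subst ht
      exact ⟨i, hy'W.2, hcon⟩

/-- uniqueness of the infinite cluster on the good event -/
theorem uniq {O : Set RV} (hG : Good O) (hO : ∀ v ∈ O, Valid v) {x y : RV} (hx : x ∈ O)
    (hy : y ∈ O) (hxi : {z | Conn G0 O x z}.Infinite) (hyi : {z | Conn G0 O y z}.Infinite) :
    Conn G0 O x y := by
  obtain ⟨n, j, z, hj, hz, hxz⟩ := claim4 hG hO hx hxi
  obtain ⟨m, k, w, hk, hw, hyw⟩ := claim4 hG hO hy hyi
  exact (hxz.trans (cr_conn hG hj hk hz hw)).trans hyw.symm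

end Pool.Agent.H728R3
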