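import Mathlib
import Pool.Agent.H728R3.Uniq3

set_option autoImplicit false

open MeasureTheory

namespace Pool.Agent.H728R3

/-- the Bernoulli measure -/
noncomputable def ber (p : ℝ) : Measure Bool :=
  ENNReal.ofReal p • Measure.dirac true + ENNReal.ofReal (1 - p) • Measure.dirac false

lemma ber_prob {p : ℝ} (hp : p ∈ Set.Icc (0 : ℝ) 1) : IsProbabilityMeasure (ber p) := by
  constructor
  unfold ber
  rw [Measure.add_apply, Measure.smul_apply, Measure.smul_apply, measure_univ, measure_univ,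
    smul_eq_mul, smul_eq_mul, mul_one, mul_one, ← ENNReal.ofReal_add hp.1 (by linarith [hp.2])]
  norm_num

lemma ber_true (p : ℝ) : ber p {true} = ENNReal.ofReal p := by
  unfold ber
  rw [Measure.add_apply, Measure.smul_apply, Measure.smul_apply]
  simp

lemma ber_false (p : ℝ) : ber p {false} = ENNReal.ofReal (1 - p) := by
  unfold ber
  rw [Measure.add_apply, Measure.smul_apply, Measure.smul_apply]
  simp

/-- the product measure -/
noncomputable def mu (p : ℝ) : Measure (V → Bool) := Measure.infinitePi (fun _ : V => ber p)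

lemma mu_prob {p : ℝ} (hp : p ∈ Set.Icc (0 : ℝ) 1) : IsProbabilityMeasure (mu p) := by
  have := ber_prob hp
  unfold mu
  infer_instance

lemma mu_const {p : ℝ} (hp : p ∈ Set.Icc (0 : ℝ) 1) (b : Bool) (S : Finset V) :
    mu p {ω | ∀ v ∈ S, ω v = b} = (ber p {b}) ^ S.card := by
  have := ber_prob hp
  have h1 : {ω : V → Bool | ∀ v ∈ S, ω v = b} = Set.pi (S : Set V) (fun _ => {b}) := by
    ext ω
    simp [Set.mem_pi]
  unfold mu
  rw [h1, Measure.infinitePi_pi _ (fun i _ => measurableSet_singleton b), Finset.prod_const]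

lemma mu_true {p : ℝ} (hp : p ∈ Set.Icc (0 : ℝ) 1) (S : Finset V) :
    mu p {ω | ∀ v ∈ S, ω v = true} = ENNReal.ofReal p ^ S.card := by
  rw [mu_const hp, ber_true]

lemma mu_false {p : ℝ} (hp : p ∈ Set.Icc (0 : ℝ) 1) (S : Finset V) :
    mu p {ω | ∀ v ∈ S, ω v = false} = ENNReal.ofReal (1 - p) ^ S.card := by
  rw [mu_const hp, ber_false]

/-- the open vertices -/
def opn (ω : V → Bool) : Set RV := {v | ∃ h : Valid v, ω ⟨v, h⟩ = true}

lemma opn_valid (ω : V → Bool) : ∀ v ∈ opn ω, Valid v := fun _ h => h.1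

/-! ### the good event -/

/-- the vertices of the list are closed -/
def clo (l : List RV) : Set (V → Bool) :=
  {ω | l.Nodup ∧ (∀ v ∈ l, Valid v) ∧ ∀ v ∈ l, v ∉ opn ω}

lemma mu_clo {p : ℝ} (hp : p ∈ Set.Icc (0 : ℝ) 1) (l : List RV) :
    mu p (clo l) ≤ ENNReal.ofReal (1 - p) ^ l.length := by
  classical
  by_cases h : l.Nodup ∧ ∀ v ∈ l, Valid v
  · obtain ⟨h1, h2⟩ := h
    set S : Finset V := (l.toFinset).subtype Valid with hS
    have hcard : S.card = l.length := by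
      rw [hS, Finset.card_subtype, Finset.filter_true_of_mem, List.toFinset_card_of_nodup h1]
      intro v hv
      exact h2 v (by simpa using hv)
    rw [← hcard, ← mu_false hp]
    apply measure_mono
    rintro ω ⟨-, -, h3⟩ v hv
    have hv' : v.1 ∈ l := by
      rw [hS, Finset.mem_subtype] at hv
      simpa using hv
    by_contra hc
    exact h3 v.1 hv' ⟨v.2, by simpa using hc⟩
  · have : clo l = ∅ := by
      ext ω
      simp only [clo, Set.mem_empty_iff_false, iff_false]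
      rintro ⟨h1, h2, -⟩
      exact h ⟨h1, h2⟩
    rw [this, measure_empty]
    exact zero_le

/-- bad event at level `t` -/
def badt (t : ℕ) : Set (V → Bool) :=
  ⋃ i ∈ Finset.range (8 ^ t), ⋃ l ∈ P (t / 4 - 2) (t, i), clo l

lemma mu_badt {p : ℝ} (hp : p ∈ Set.Icc (0 : ℝ) 1) (t : ℕ) :
    mu p (badt t) ≤ 8 ^ t * (16 ^ (t / 4 - 2) * ENNReal.ofReal (1 - p) ^ (t / 4 - 2 + 1)) := by
  unfold badt
  refine (measure_biUnion_finset_le _ _).trans ?_
  have h1 : ∀ i ∈ Finset.range (8 ^ t), mu p (⋃ l ∈ P (t / 4 - 2) (t, i), clo l) ≤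
      16 ^ (t / 4 - 2) * ENNReal.ofReal (1 - p) ^ (t / 4 - 2 + 1) := by
    intro i _
    refine (measure_biUnion_finset_le _ _).trans ?_
    have h2 : ∀ l ∈ P (t / 4 - 2) (t, i), mu p (clo l) ≤
        ENNReal.ofReal (1 - p) ^ (t / 4 - 2 + 1) := by
      intro l hl
      have := mu_clo hp l
      rwa [length_P hl] at this
    refine (Finset.sum_le_sum h2).trans ?_
    rw [Finset.sum_const, nsmul_eq_mul]
    gcongr
    exact_mod_cast card_P _ _
  refine (Finset.sum_le_sum h1).trans ?_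
  rw [Finset.sum_const, nsmul_eq_mul, Finset.card_range]
  push_cast
  exact le_refl _

lemma not_good_sub : {ω | ¬ Good (opn ω)} ⊆ ⋃ s : ℕ, badt (32 + s) := by
  intro ω hω
  have hω' : ¬ Good (opn ω) := hω
  unfold Good at hω'
  push Not at hω'
  obtain ⟨t, i, hv, l, hl, hnd, hval, hno⟩ := hω'
  obtain ⟨h1, h2⟩ := hv
  obtain ⟨s, rfl⟩ := Nat.exists_eq_add_of_le h1
  refine Set.mem_iUnion.2 ⟨s, ?_⟩
  unfold badt
  simp only [Set.mem_iUnion, Finset.mem_range]
  exact ⟨i, h2, l, hl, hnd, hval, hno⟩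

lemma term_le (s : ℕ) : (8 : ENNReal) ^ (32 + s) *
    (16 ^ ((32 + s) / 4 - 2) * ((2⁻¹ : ENNReal) ^ 40) ^ ((32 + s) / 4 - 2 + 1)) ≤
    (2⁻¹) ^ (s + 2) := by
  set m := s / 4 with hm
  have e1 : (32 + s) / 4 - 2 = 6 + m := by omega
  rw [e1]
  have e8 : (8 : ENNReal) = 2 ^ 3 := by norm_num
  have e16 : (16 : ENNReal) = 2 ^ 4 := by norm_num
  rw [e8, e16, ← pow_mul, ← pow_mul, ← pow_mul, ← mul_assoc, ← pow_add]
  obtain ⟨y, hy⟩ : ∃ y, 40 * (6 + m + 1) = (3 * (32 + s) + 4 * (6 + m)) + y ∧ s + 2 ≤ y :=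
    ⟨40 * (6 + m + 1) - (3 * (32 + s) + 4 * (6 + m)), by omega, by omega⟩
  rw [hy.1, pow_add (2⁻¹ : ENNReal), ← mul_assoc, ← mul_pow,
    ENNReal.mul_inv_cancel (by norm_num) (by norm_num), one_pow, one_mul]
  exact pow_le_pow_right_of_le_one' (by
    rw [ENNReal.inv_le_one]; norm_num) hy.2

lemma ofReal_q : ENNReal.ofReal (1 - (1 - (1 / 2 : ℝ) ^ 40)) = (2⁻¹ : ENNReal) ^ 40 := by
  have : (1 - (1 - (1 / 2 : ℝ) ^ 40)) = (2⁻¹ : ℝ) ^ 40 := by norm_num
  rw [this, ENNReal.ofReal_pow (by norm_num), ENNReal.ofReal_inv_of_pos (by norm_num)]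
  norm_num

theorem not_good_lt : mu (1 - (1 / 2 : ℝ) ^ 40) {ω | ¬ Good (opn ω)} < 1 := by
  have hp : (1 - (1 / 2 : ℝ) ^ 40) ∈ Set.Icc (0 : ℝ) 1 := by constructor <;> norm_num
  calc mu (1 - (1 / 2 : ℝ) ^ 40) {ω | ¬ Good (opn ω)}
      ≤ mu (1 - (1 / 2 : ℝ) ^ 40) (⋃ s : ℕ, badt (32 + s)) := measure_mono not_good_sub
    _ ≤ ∑' s : ℕ, mu (1 - (1 / 2 : ℝ) ^ 40) (badt (32 + s)) := measure_iUnion_le _
    _ ≤ ∑' s : ℕ, (2⁻¹ : ENNReal) ^ (s + 2) := by
        refine ENNReal.tsum_le_tsum (fun s => ?_)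
        refine (mu_badt hp (32 + s)).trans ?_
        rw [ofReal_q]
        exact term_le s
    _ < 1 := by
        have e : ∀ s : ℕ, (2⁻¹ : ENNReal) ^ (s + 2) = 2⁻¹ * (2⁻¹ * 2⁻¹ ^ s) := by
          intro s; rw [pow_add]; ring
        simp_rw [e]
        rw [ENNReal.tsum_mul_left, ENNReal.tsum_mul_left, ENNReal.tsum_geometric,
          ENNReal.one_sub_inv_two, inv_inv, ENNReal.inv_mul_cancel (by norm_num) (by norm_num),
          mul_one]
        exact ENNReal.inv_lt_one.2 (by norm_num)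

end Pool.Agent.H728R3
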