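import Mathlib
import Pool.Agent.H728R3.Prob

set_option autoImplicit false

open MeasureTheory Filter Topology

namespace Pool.Agent.H728R3

/-- number of children of the hubs of generation `n` -/
def ch (n : ℕ) : ℕ := 8 ^ (lam (n + 1) - lam n)

/-- all the children of the hub `(n, j)` are closed -/
def nochild (n j : ℕ) : Set (V → Bool) :=
  {ω | ∀ a < ch n, (Sum.inr (n + 1, j * ch n + a) : RV) ∉ opn ω}

lemma mu_nochild {p : ℝ} (hp : p ∈ Set.Icc (0 : ℝ) 1) {n j : ℕ} (hj : j < 8 ^ lam n) :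
    mu p (nochild n j) ≤ ENNReal.ofReal (1 - p) ^ ch n := by
  classical
  have hv : ∀ a : Fin (ch n), Valid (.inr (n + 1, j * ch n + a)) :=
    fun a => hchild_valid (n := n) (j := j) hj a.2
  set e : Fin (ch n) ↪ V := ⟨fun a => ⟨.inr (n + 1, j * ch n + a), hv a⟩, by
    intro a b hab
    simp only [Subtype.mk.injEq, Sum.inr.injEq, Prod.mk.injEq, true_and] at hab
    exact Fin.ext (by omega)⟩ with he
  have hcard : (Finset.univ.map e).card = ch n := by
    rw [Finset.card_map, Finset.card_univ, Fintype.card_fin]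
  rw [← hcard, ← mu_false hp]
  apply measure_mono
  intro ω hω v hv'
  rw [Finset.mem_map] at hv'
  obtain ⟨a, -, rfl⟩ := hv'
  by_contra hc
  have hc' : ω (e a) = true := by simpa using hc
  exact hω a a.2 ⟨hv a, hc'⟩

/-- some hub of generation `n` has no open child -/
def badn (n : ℕ) : Set (V → Bool) := ⋃ j ∈ Finset.range (8 ^ lam n), nochild n j

lemma mu_badn {p : ℝ} (hp : p ∈ Set.Icc (0 : ℝ) 1) (n : ℕ) :
    mu p (badn n) ≤ ((8 ^ lam n : ℕ) : ENNReal) * ENNReal.ofReal (1 - p) ^ ch n := by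
  unfold badn
  refine (measure_biUnion_finset_le _ _).trans ?_
  have h1 : ∀ j ∈ Finset.range (8 ^ lam n), mu p (nochild n j) ≤
      ENNReal.ofReal (1 - p) ^ ch n := fun j hj => mu_nochild hp (Finset.mem_range.1 hj)
  refine (Finset.sum_le_sum h1).trans ?_
  rw [Finset.sum_const, nsmul_eq_mul, Finset.card_range]

lemma lam_strictMono : StrictMono lam := by
  refine strictMono_nat_of_lt_succ (fun n => ?_)
  rw [lam_succ]; omega

lemma sum_badn {p : ℝ} (hp : p ∈ Set.Icc (0 : ℝ) 1) (h0 : 0 < p) :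
    ∑' n, mu p (badn n) ≠ ⊤ := by
  set r : ℝ := 1 - p with hr
  have hr0 : 0 ≤ r := by linarith [hp.2]
  have hr1 : ‖r‖ < 1 := by
    rw [Real.norm_eq_abs, abs_of_nonneg hr0]; linarith
  have hs := summable_pow_mul_geometric_of_norm_lt_one (R := ℝ) 1 hr1
  have hs2 := hs.tsum_ofReal_ne_top
  set g : ℕ → ENNReal := fun k => ENNReal.ofReal ((k : ℝ) ^ 1 * r ^ k) with hg
  have hinj : Function.Injective (fun n => 8 ^ lam n) := by
    have : StrictMono (fun n => 8 ^ lam n) := by
      intro a b hab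
      exact Nat.pow_lt_pow_right (by norm_num) (lam_strictMono hab)
    exact this.injective
  have h1 : ∑' n, mu p (badn n) ≤ ∑' n, g (8 ^ lam n) := by
    refine ENNReal.tsum_le_tsum (fun n => ?_)
    refine (mu_badn hp n).trans ?_
    simp only [hg]
    rw [pow_one, ENNReal.ofReal_mul (by positivity), ENNReal.ofReal_pow hr0, ENNReal.ofReal_natCast]
    refine mul_le_mul_right (α := ENNReal) ?_ _
    refine pow_le_pow_right_of_le_one' ?_ ?_
    · rw [ENNReal.ofReal_le_one]; linarith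
    · unfold ch
      apply Nat.pow_le_pow_right (by norm_num)
      rw [lam_diff]; omega
  have h2 : ∑' n, g (8 ^ lam n) ≤ ∑' k, g k := ENNReal.tsum_comp_le_tsum_of_injective hinj g
  exact ne_top_of_le_ne_top hs2 (h1.trans h2)

/-- hubs with open children give an infinite cluster -/
lemma hub_infinite {O : Set RV} (hO : ∀ v ∈ O, Valid v) (n1 : ℕ)
    (hroot : (Sum.inr (n1, 0) : RV) ∈ O)
    (hc : ∀ n, n1 ≤ n → ∀ j < 8 ^ lam n, ∃ a < ch n, (Sum.inr (n + 1, j * ch n + a) : RV) ∈ O) :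
    {z | Conn G0 O (.inr (n1, 0)) z}.Infinite := by
  have key : ∀ k, ∃ j, (Sum.inr (n1 + k, j) : RV) ∈ O ∧
      Conn G0 O (.inr (n1, 0)) (.inr (n1 + k, j)) := by
    intro k
    induction k with
    | zero => exact ⟨0, hroot, Conn.refl _⟩
    | succ k ih =>
      obtain ⟨j, hj, hcon⟩ := ih
      have hjv : j < 8 ^ lam (n1 + k) := hO _ hj
      obtain ⟨a, ha, hopen⟩ := hc (n1 + k) (by omega) j hjv
      refine ⟨_, hopen, hcon.trans (Conn.step ?_ hj hopen)⟩
      refine ⟨hO _ hj, hO _ hopen, Or.inl ⟨rfl, ?_⟩⟩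
      show (j * ch (n1 + k) + a) / ch (n1 + k) = j
      rw [mul_comm, Nat.mul_add_div (by unfold ch; exact p8 _), Nat.div_eq_of_lt ha, add_zero]
  choose f hf1 hf2 using key
  refine Set.infinite_of_injective_forall_mem (f := fun k => (Sum.inr (n1 + k, f k) : RV)) ?_
    (fun k => hf2 k)
  intro a b hab
  simp only [Sum.inr.injEq, Prod.mk.injEq] at hab
  omega

/-- infinite clusters exist with positive probability at every positive density -/
theorem inf_pos {p : ℝ} (hp : p ∈ Set.Icc (0 : ℝ) 1) (h0 : 0 < p) :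
    mu p {ω | ∃ x ∈ opn ω, {z | Conn G0 (opn ω) x z}.Infinite} ≠ 0 := by
  intro hzero
  have htend := ENNReal.tendsto_sum_nat_add (fun n => mu p (badn n)) (sum_badn hp h0)
  have hpos : (0 : ENNReal) < ENNReal.ofReal p := ENNReal.ofReal_pos.2 h0
  obtain ⟨n1, hn1⟩ := ((tendsto_order.1 htend).2 _ hpos).exists
  have hroot : mu p {ω | (Sum.inr (n1, 0) : RV) ∈ opn ω} = ENNReal.ofReal p := by
    have hv : Valid (.inr (n1, 0)) := p8 _
    have h1 := mu_true hp {(⟨.inr (n1, 0), hv⟩ : V)}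
    rw [Finset.card_singleton, pow_one] at h1
    rw [← h1]
    congr 1
    ext ω
    simp only [opn, Set.mem_ofPred_eq, Finset.mem_singleton, forall_eq]
    constructor
    · rintro ⟨_, h⟩; exact h
    · intro h; exact ⟨hv, h⟩
  have hsub : {ω | (Sum.inr (n1, 0) : RV) ∈ opn ω} ⊆
      {ω | ∃ x ∈ opn ω, {z | Conn G0 (opn ω) x z}.Infinite} ∪ ⋃ k, badn (k + n1) := by
    intro ω hω
    by_cases hbad : ω ∈ ⋃ k, badn (k + n1)
    · exact Or.inr hbad
    · left
      refine ⟨_, hω, hub_infinite (opn_valid ω) n1 hω ?_⟩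
      intro n hn j hj
      by_contra hc
      push Not at hc
      apply hbad
      refine Set.mem_iUnion.2 ⟨n - n1, ?_⟩
      rw [Nat.sub_add_cancel hn]
      unfold badn
      simp only [Set.mem_iUnion, Finset.mem_range]
      exact ⟨j, hj, hc⟩
  have h2 : ENNReal.ofReal p ≤ 0 + ∑' k, mu p (badn (k + n1)) := by
    rw [← hroot]
    refine (measure_mono hsub).trans ((measure_union_le _ _).trans ?_)
    rw [hzero]
    gcongr
    exact measure_iUnion_le _
  rw [zero_add] at h2
  exact absurd hn1 (not_lt.2 h2)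

end Pool.Agent.H728R3
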