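import Mathlib
import Pool.Agent.H728R3.Prob2

set_option autoImplicit false

open MeasureTheory

namespace Pool.Agent.H728R3

variable {ω : V → Bool}

lemma reach_conn {a b : {v | ω v = true}} (h : (G.induce {v | ω v = true}).Reachable a b) :
    Conn G0 (opn ω) a.1.1 b.1.1 := by
  obtain ⟨p⟩ := h
  induction p with
  | nil => exact Conn.refl _
  | cons h p ih =>
    rename_i a b c
    refine Conn.trans (Conn.step ?_ ?_ ?_) ih
    · exact h
    · exact ⟨a.1.2, a.2⟩
    · exact ⟨b.1.2, b.2⟩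

lemma conn_reach {x z : RV} (hx : x ∈ opn ω) (h : Conn G0 (opn ω) x z) :
    ∃ hz : z ∈ opn ω, (G.induce {v | ω v = true}).Reachable
      ⟨⟨x, hx.choose⟩, hx.choose_spec⟩ ⟨⟨z, hz.choose⟩, hz.choose_spec⟩ := by
  refine Conn.inv (P := fun z => ∃ hz : z ∈ opn ω, (G.induce {v | ω v = true}).Reachable
      ⟨⟨x, hx.choose⟩, hx.choose_spec⟩ ⟨⟨z, hz.choose⟩, hz.choose_spec⟩) ?_ h
      ⟨hx, SimpleGraph.Reachable.refl _⟩
  rintro u v ⟨hu, hr⟩ huv
  refine ⟨huv.2.2, hr.trans (SimpleGraph.Adj.reachable ?_)⟩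
  exact huv.1

/-- an infinite cluster gives an infinite component -/
lemma comp_of_inf (h : ∃ x ∈ opn ω, {z | Conn G0 (opn ω) x z}.Infinite) :
    ∃ c : (G.induce {v | ω v = true}).ConnectedComponent, c.supp.Infinite := by
  obtain ⟨x, hx, hinf⟩ := h
  refine ⟨(G.induce {v | ω v = true}).connectedComponentMk ⟨⟨x, hx.choose⟩, hx.choose_spec⟩, ?_⟩
  refine Set.Infinite.of_image (fun a : {v | ω v = true} => a.1.1) (hinf.mono ?_)
  intro z hz
  obtain ⟨hz', hr⟩ := conn_reach hx hz
  refine ⟨⟨⟨z, hz'.choose⟩, hz'.choose_spec⟩, ?_, rfl⟩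
  rw [SimpleGraph.ConnectedComponent.mem_supp_iff]
  exact SimpleGraph.ConnectedComponent.sound hr.symm

lemma inf_of_comp {c : (G.induce {v | ω v = true}).ConnectedComponent} (hc : c.supp.Infinite)
    (a : {v | ω v = true}) (ha : (G.induce {v | ω v = true}).connectedComponentMk a = c) :
    {z | Conn G0 (opn ω) a.1.1 z}.Infinite := by
  have h1 : ((fun a : {v | ω v = true} => a.1.1) '' c.supp).Infinite := by
    refine hc.image ?_
    intro u _ v _ huv
    exact Subtype.ext (Subtype.ext huv)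
  refine h1.mono ?_
  rintro _ ⟨b, hb, rfl⟩
  rw [SimpleGraph.ConnectedComponent.mem_supp_iff, ← ha] at hb
  exact reach_conn (SimpleGraph.ConnectedComponent.exact hb).symm

/-- on the good event there is at most one infinite component -/
lemma not_inf_of_good (hG : Good (opn ω)) :
    ¬ {c : (G.induce {v | ω v = true}).ConnectedComponent | c.supp.Infinite}.Infinite := by
  rw [Set.not_infinite]
  refine Set.Subsingleton.finite ?_
  intro c hc d hd
  have hc' : c.supp.Infinite := hc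
  have hd' : d.supp.Infinite := hd
  obtain ⟨a, rfl⟩ := c.exists_rep
  obtain ⟨b, rfl⟩ := d.exists_rep
  have h1 := inf_of_comp hc' a rfl
  have h2 := inf_of_comp hd' b rfl
  have ha : a.1.1 ∈ opn ω := ⟨a.1.2, a.2⟩
  have hb : b.1.1 ∈ opn ω := ⟨b.1.2, b.2⟩
  have h3 := uniq hG (opn_valid ω) ha hb h1 h2
  obtain ⟨_, hr⟩ := conn_reach ha h3
  exact SimpleGraph.ConnectedComponent.sound hr

end Pool.Agent.H728R3
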